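import Mathlib

/-!
# Uniform random functions: exponential moments and zero patterns
-/

namespace Pool.Agent.SetIntLocal

open Finset

theorem exp_le_two {t : ℝ} (h0 : 0 ≤ t) (h1 : t ≤ 1) : Real.exp t ≤ 1 + 2 * t := by
  have h := Real.abs_exp_sub_one_sub_id_le (x := t) (by rw [abs_of_nonneg h0]; exact h1)
  have h2 := (abs_le.mp h).2
  nlinarith

variable {β : Type*} [Fintype β] [DecidableEq β]

/-- exponential moment of a weighted sum -/
theorem mgf (d : ℕ) (Y : β → ℝ) (h0 : ∀ b, 0 ≤ Y b) (h1 : ∀ b, Y b ≤ 1) :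
    ∑ h : β → Fin (d + 1), Real.exp (∑ b, if h b = 0 then Y b else 0) ≤
      ((d + 1 : ℕ) : ℝ) ^ Fintype.card β * Real.exp (2 * (∑ b, Y b) / ((d + 1 : ℕ) : ℝ)) := by
  have e1 : ∑ h : β → Fin (d + 1), Real.exp (∑ b, if h b = 0 then Y b else 0) =
      ∏ b, ∑ k : Fin (d + 1), Real.exp (if k = 0 then Y b else 0) := by
    rw [Finset.prod_univ_sum]
    rw [Fintype.piFinset_univ]
    refine Finset.sum_congr rfl fun h _ => ?_
    rw [Real.exp_sum]
  rw [e1]
  have e2 : ∀ b, ∑ k : Fin (d + 1), Real.exp (if k = 0 then Y b else 0) ≤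
      ((d + 1 : ℕ) : ℝ) * Real.exp (2 * Y b / ((d + 1 : ℕ) : ℝ)) := by
    intro b
    rw [Fin.sum_univ_succ]
    simp only [if_true, Fin.succ_ne_zero, if_false, Real.exp_zero, Finset.sum_const,
      Finset.card_univ, Fintype.card_fin, nsmul_eq_mul, mul_one]
    have h2 := exp_le_two (h0 b) (h1 b)
    have hd : (0 : ℝ) < ((d + 1 : ℕ) : ℝ) := by positivity
    have h3 : 2 * Y b / ((d + 1 : ℕ) : ℝ) + 1 ≤ Real.exp (2 * Y b / ((d + 1 : ℕ) : ℝ)) :=
      Real.add_one_le_exp _
    have h4 : ((d + 1 : ℕ) : ℝ) * (2 * Y b / ((d + 1 : ℕ) : ℝ) + 1) = 2 * Y b + (d + 1) := by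
      push_cast
      field_simp
    have h5 := mul_le_mul_of_nonneg_left h3 hd.le
    rw [h4] at h5
    linarith
  have e3 := Finset.prod_le_prod (s := (Finset.univ : Finset β))
    (fun b _ => Finset.sum_nonneg fun k _ => (Real.exp_pos _).le) (fun b _ => e2 b)
  refine e3.trans (le_of_eq ?_)
  rw [Finset.prod_mul_distrib, Finset.prod_const, Finset.card_univ, ← Real.exp_sum,
    ← Finset.sum_div, ← Finset.mul_sum]

/-- tail of a weighted sum -/
theorem tail (d M L : ℕ) (hM : 1 ≤ M) (X : β → ℕ) (hX : ∀ b, X b ≤ M) :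
    (univ.filter fun h : β → Fin (d + 1) =>
      2 * (∑ b, X b) + (d + 1) * (M * L) ≤ (d + 1) * ∑ b, if h b = 0 then X b else 0).card *
        2 ^ L ≤ (d + 1) ^ Fintype.card β := by
  have hMr : (0 : ℝ) < M := by exact_mod_cast hM
  have hd : (0 : ℝ) < ((d + 1 : ℕ) : ℝ) := by positivity
  set Y : β → ℝ := fun b => (X b : ℝ) / M with hY
  have hY0 : ∀ b, 0 ≤ Y b := fun b => by positivity
  have hY1 : ∀ b, Y b ≤ 1 := fun b => by
    rw [hY]
    simp only
    rw [div_le_one hMr]
    exact_mod_cast hX b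
  have hm := mgf d Y hY0 hY1
  set S : ℝ := 2 * (∑ b, Y b) / ((d + 1 : ℕ) : ℝ) with hS
  set bad := univ.filter fun h : β → Fin (d + 1) =>
      2 * (∑ b, X b) + (d + 1) * (M * L) ≤ (d + 1) * ∑ b, if h b = 0 then X b else 0 with hbad
  have h1 : (bad.card : ℝ) * (Real.exp S * 2 ^ L) ≤
      ∑ h : β → Fin (d + 1), Real.exp (∑ b, if h b = 0 then Y b else 0) := by
    rw [← nsmul_eq_mul, ← Finset.sum_const]
    refine (Finset.sum_le_sum (fun h hh => ?_)).trans
      (Finset.sum_le_sum_of_subset_of_nonneg (Finset.subset_univ bad)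
        fun _ _ _ => (Real.exp_pos _).le)
    rw [hbad, mem_filter] at hh
    have h2 : ((2 * (∑ b, X b) + (d + 1) * (M * L) : ℕ) : ℝ) ≤
        (((d + 1) * ∑ b, if h b = 0 then X b else 0 : ℕ) : ℝ) := by exact_mod_cast hh.2
    have h3 : (∑ b, if h b = 0 then Y b else 0) =
        ((∑ b, if h b = 0 then X b else 0 : ℕ) : ℝ) / M := by
      push_cast
      rw [Finset.sum_div]
      refine Finset.sum_congr rfl fun b _ => ?_
      split_ifs <;> simp [hY]
    have h4 : S = 2 * ((∑ b, X b : ℕ) : ℝ) / M / ((d + 1 : ℕ) : ℝ) := by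
      rw [hS, hY]
      push_cast
      rw [← Finset.sum_div]
      ring
    have h5 : S + L ≤ ∑ b, if h b = 0 then Y b else 0 := by
      rw [h3, h4]
      have h6 : 2 * ((∑ b, X b : ℕ) : ℝ) / M / ((d + 1 : ℕ) : ℝ) + L =
          (2 * ((∑ b, X b : ℕ) : ℝ) + ((d + 1 : ℕ) : ℝ) * (M * L)) / (M * ((d + 1 : ℕ) : ℝ)) := by
        field_simp
      rw [h6, div_le_div_iff₀ (by positivity) hMr]
      have h7 : (2 * ((∑ b, X b : ℕ) : ℝ) + ((d + 1 : ℕ) : ℝ) * (M * L)) ≤
          ((d + 1 : ℕ) : ℝ) * ((∑ b, if h b = 0 then X b else 0 : ℕ) : ℝ) := by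
        have := h2
        push_cast at this ⊢
        linarith
      nlinarith
    have h8 : Real.exp S * 2 ^ L ≤ Real.exp (S + L) := by
      rw [Real.exp_add]
      refine mul_le_mul_of_nonneg_left ?_ (Real.exp_pos _).le
      have h9 : (2 : ℝ) ≤ Real.exp 1 := by
        have := Real.add_one_le_exp (1 : ℝ)
        linarith
      calc (2 : ℝ) ^ L ≤ (Real.exp 1) ^ L := pow_le_pow_left₀ (by norm_num) h9 L
        _ = Real.exp L := by rw [← Real.exp_nat_mul, mul_one]
    exact h8.trans (Real.exp_le_exp.mpr h5)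
  have h10 := h1.trans hm
  have h11 : (bad.card : ℝ) * 2 ^ L ≤ ((d + 1 : ℕ) : ℝ) ^ Fintype.card β := by
    have hpos := Real.exp_pos S
    have h12 : ((bad.card : ℝ) * 2 ^ L) * Real.exp S ≤
        (((d + 1 : ℕ) : ℝ) ^ Fintype.card β) * Real.exp S := by
      calc ((bad.card : ℝ) * 2 ^ L) * Real.exp S = (bad.card : ℝ) * (Real.exp S * 2 ^ L) := by ring
        _ ≤ _ := h10
    exact le_of_mul_le_mul_right h12 hpos
  exact_mod_cast h11

/-- functions that vanish on a given set -/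
theorem card_zero (d : ℕ) (P : Finset β) :
    (univ.filter fun h : β → Fin (d + 1) => ∀ p ∈ P, h p = 0).card * (d + 1) ^ P.card =
      (d + 1) ^ Fintype.card β := by
  have e1 : (univ.filter fun h : β → Fin (d + 1) => ∀ p ∈ P, h p = 0) =
      Fintype.piFinset (fun p => if p ∈ P then ({0} : Finset (Fin (d + 1))) else univ) := by
    ext h
    rw [mem_filter, Fintype.mem_piFinset]
    constructor
    · rintro ⟨-, h1⟩ p
      split_ifs with hp
      · rw [mem_singleton]; exact h1 p hp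
      · exact mem_univ _
    · intro h1
      refine ⟨mem_univ _, fun p hp => ?_⟩
      have := h1 p
      rw [if_pos hp, mem_singleton] at this
      exact this
  rw [e1, Fintype.card_piFinset]
  have e2 : ∀ p, (if p ∈ P then ({0} : Finset (Fin (d + 1))) else univ).card =
      if p ∈ P then 1 else d + 1 := by
    intro p
    split_ifs <;> simp
  simp only [e2]
  rw [Finset.prod_ite, Finset.prod_const_one, one_mul, Finset.prod_const, ← pow_add]
  congr 1
  have := Finset.card_filter_add_card_filter_not (s := (univ : Finset β)) (fun p => p ∈ P)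
  rw [Finset.filter_univ_mem, Finset.card_univ] at this
  omega

end Pool.Agent.SetIntLocal
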