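import Mathlib

/-!
# Set intersection queries with local decoding

Cells of `w` bits with arbitrary contents. In the query `{i, j}` the cells to be read, and the
elements decoded from the content of each of them, are computed from one of the two sets (and a free
directory of `w` bits); each element of the answer must be decoded from a single cell.
-/

namespace Pool.Agent.SetIntLocal

open Finset

/-- A family of `m` sets of natural numbers below `2 ^ w`, of total size `N`. -/
def IsFamily (N w : ℕ) {m : ℕ} (F : Fin m → Finset ℕ) : Prop :=
  (∀ i, ∀ x ∈ F i, x < 2 ^ w) ∧ ∑ i, (F i).card = N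

/-- The query algorithm for families of `m` sets and a memory of `s` cells of `w` bits. The ordered
pair `(i, j)` has `A` nodes. The node `a` reads the cell `addr δ i j a X` and decodes from its
content `v` the set `dec δ i j a X v` of at most `B` elements; here `δ` is the state of the
directory and `X` is the set with index `i`. -/
structure Scheme (A B s w m : ℕ) where
  addr : Fin (2 ^ w) → Fin m → Fin m → Fin A → Finset ℕ → Fin s
  dec : Fin (2 ^ w) → Fin m → Fin m → Fin A → Finset ℕ → Fin (2 ^ w) → Finset ℕ
  card_le : ∀ δ i j a X v, (dec δ i j a X v).card ≤ B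

/-- The element `x` is decoded at one of the nodes of `(i, j)`, for the family `F`, the directory
`δ` and the memory `M`. -/
def Scheme.Decodes {A B s w m : ℕ} (𝒟 : Scheme A B s w m) (F : Fin m → Finset ℕ)
    (δ : Fin (2 ^ w)) (M : Fin s → Fin (2 ^ w)) (i j : Fin m) (x : ℕ) : Prop :=
  ∃ a, x ∈ 𝒟.dec δ i j a (F i) (M (𝒟.addr δ i j a (F i)))

/-- There are a state of the directory and contents of all cells such that, for every two indices
`i ≠ j` with at most `T` common elements, every common element is decoded at a node of `(i, j)` or
at a node of `(j, i)`. -/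
def Scheme.Serves {A B s w m : ℕ} (𝒟 : Scheme A B s w m) (T : ℕ) (F : Fin m → Finset ℕ) : Prop :=
  ∃ (δ : Fin (2 ^ w)) (M : Fin s → Fin (2 ^ w)), ∀ i j, i ≠ j → (F i ∩ F j).card ≤ T →
    ∀ x ∈ F i ∩ F j, 𝒟.Decodes F δ M i j x ∨ 𝒟.Decodes F δ M j i x

/-- For every number `m ≤ N` of sets there is a query algorithm, with `s` cells of `w` bits, `A` nodes
for each ordered pair and at most `B` elements decoded at a node, that serves all families of `m`
sets of total size `N`, for the queries with at most `T` answers. -/
def Solvable (N T A B s w : ℕ) : Prop :=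
  ∀ m : ℕ, m ≤ N → ∃ 𝒟 : Scheme A B s w m, ∀ F : Fin m → Finset ℕ, IsFamily N w F → 𝒟.Serves T F

end Pool.Agent.SetIntLocal
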