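import Pool.Agent.SetIntLocal.Bern

/-!
# Discrepancy of a random bipartite graph
-/

namespace Pool.Agent.SetIntLocal

open Finset

variable {K u d : ℕ}

/-- the number of edges between `H` and `X` -/
def ee (g : Fin K × Fin u → Fin (d + 1)) (H : Finset (Fin K)) (X : Finset (Fin u)) : ℕ :=
  ((H ×ˢ X).filter fun p => g p = 0).card

/-- the discrepancy property -/
def Disc (L : ℕ) (g : Fin K × Fin u → Fin (d + 1)) : Prop :=
  ∀ (H : Finset (Fin K)) (X : Finset (Fin u)),
    (d + 1) * ee g H X ≤ 2 * (H.card * X.card) + (d + 1) * (L * (H.card + X.card))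

theorem ee_eq (g : Fin K × Fin u → Fin (d + 1)) (H : Finset (Fin K)) (X : Finset (Fin u)) :
    ee g H X = ∑ b, if g b = 0 then (if b ∈ H ×ˢ X then 1 else 0) else 0 := by
  unfold ee
  rw [Finset.card_filter]
  have e : ∀ b : Fin K × Fin u, (if g b = 0 then (if b ∈ H ×ˢ X then 1 else 0) else 0) =
      if b ∈ H ×ˢ X then (if g b = 0 then 1 else 0) else 0 := by
    intro b
    split_ifs <;> rfl
  simp only [e]
  rw [Finset.sum_ite_mem, Finset.univ_inter]

theorem ee_empty (g : Fin K × Fin u → Fin (d + 1)) (H : Finset (Fin K)) (X : Finset (Fin u))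
    (h : H.card + X.card = 0) : ee g H X = 0 := by
  have h1 : H = ∅ := card_eq_zero.mp (by omega)
  subst h1
  unfold ee
  simp

/-- one pair of sets -/
theorem disc_pair (L : ℕ) (H : Finset (Fin K)) (X : Finset (Fin u)) :
    (univ.filter fun g : Fin K × Fin u → Fin (d + 1) =>
      2 * (H.card * X.card) + (d + 1) * (L * (H.card + X.card)) ≤ (d + 1) * ee g H X).card *
      2 ^ (L * (H.card + X.card)) ≤ (d + 1) ^ (K * u) := by
  have h := tail (β := Fin K × Fin u) d 1 (L * (H.card + X.card)) le_rfl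
    (fun b => if b ∈ H ×ˢ X then 1 else 0) (fun b => by split_ifs <;> simp)
  have e1 : ∑ b : Fin K × Fin u, (if b ∈ H ×ˢ X then 1 else 0) = H.card * X.card := by
    rw [Finset.sum_ite_mem, Finset.univ_inter, Finset.sum_const, smul_eq_mul, mul_one,
      card_product]
  rw [e1] at h
  simp only [← ee_eq, one_mul] at h
  rw [Fintype.card_prod, Fintype.card_fin, Fintype.card_fin] at h
  exact h

theorem disc_tail (L : ℕ) (hL : K + u ≤ 2 ^ L) [DecidablePred (Disc (K := K) (u := u) (d := d) L)] :
    (univ.filter fun g : Fin K × Fin u → Fin (d + 1) => ¬ Disc L g).card * 2 ^ L ≤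
      2 * (K + u) * (d + 1) ^ (K * u) := by
  classical
  set a : ℝ := 1 / 2 ^ L with ha
  have ha0 : 0 < a := by positivity
  set Dn : ℝ := ((d : ℝ) + 1) ^ (K * u) with hDn
  have hDn0 : 0 < Dn := by positivity
  set bp : Finset (Fin K) × Finset (Fin u) → Finset (Fin K × Fin u → Fin (d + 1)) := fun P =>
    univ.filter fun g => 2 * (P.1.card * P.2.card) + (d + 1) * (L * (P.1.card + P.2.card)) ≤
      (d + 1) * ee g P.1 P.2 with hbp
  have hsub : (univ.filter fun g : Fin K × Fin u → Fin (d + 1) => ¬ Disc L g) ⊆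
      (univ.erase (∅, ∅)).biUnion bp := by
    intro g hg
    rw [mem_filter] at hg
    obtain ⟨-, hg⟩ := hg
    unfold Disc at hg
    push Not at hg
    obtain ⟨H, X, hHX⟩ := hg
    rw [mem_biUnion]
    refine ⟨(H, X), ?_, ?_⟩
    · rw [mem_erase]
      refine ⟨?_, mem_univ _⟩
      intro h
      rw [Prod.mk.injEq] at h
      obtain ⟨h1, h2⟩ := h
      subst h1 h2
      rw [ee_empty g ∅ ∅ (by simp)] at hHX
      simp at hHX
    · rw [hbp, mem_filter]
      exact ⟨mem_univ _, hHX.le⟩
  have h1 : ∀ P, ((bp P).card : ℝ) ≤ Dn * (a ^ P.1.card * a ^ P.2.card) := by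
    intro P
    have := disc_pair (d := d) L P.1 P.2
    have h2 : ((bp P).card : ℝ) * 2 ^ (L * (P.1.card + P.2.card)) ≤ Dn := by
      rw [hDn]
      exact_mod_cast this
    have h3 : a ^ P.1.card * a ^ P.2.card = 1 / 2 ^ (L * (P.1.card + P.2.card)) := by
      rw [ha, ← pow_add, div_pow, one_pow, ← pow_mul]
    rw [h3, mul_one_div, le_div_iff₀ (by positivity)]
    exact h2
  have h2 : ∑ P : Finset (Fin K) × Finset (Fin u), a ^ P.1.card * a ^ P.2.card =
      (1 + a) ^ (K + u) := by
    rw [Fintype.sum_prod_type]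
    simp only
    have e1 : ∀ n : ℕ, ∑ H : Finset (Fin n), a ^ H.card = (1 + a) ^ n := by
      intro n
      have := Fintype.sum_pow_mul_eq_add_pow (Fin n) a (1 : ℝ)
      simp only [one_pow, mul_one, Fintype.card_fin] at this
      rw [this, add_comm]
    simp only [← Finset.mul_sum, e1]
    rw [← Finset.sum_mul, e1, pow_add]
  have h3 : (((univ.filter fun g : Fin K × Fin u → Fin (d + 1) => ¬ Disc L g).card : ℕ) : ℝ) ≤
      Dn * (2 * ((K : ℝ) + u) * a) := by
    calc (((univ.filter fun g : Fin K × Fin u → Fin (d + 1) => ¬ Disc L g).card : ℕ) : ℝ)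
        ≤ ((((univ.erase (∅, ∅)).biUnion bp).card : ℕ) : ℝ) := by
          exact_mod_cast card_le_card hsub
      _ ≤ ((∑ P ∈ univ.erase (∅, ∅), (bp P).card : ℕ) : ℝ) := by
          exact_mod_cast card_biUnion_le
      _ = ∑ P ∈ univ.erase (∅, ∅), ((bp P).card : ℝ) := by push_cast; rfl
      _ ≤ ∑ P ∈ univ.erase ((∅ : Finset (Fin K)), (∅ : Finset (Fin u))),
          Dn * (a ^ P.1.card * a ^ P.2.card) := Finset.sum_le_sum fun P _ => h1 P
      _ = Dn * ((1 + a) ^ (K + u) - 1) := by
          rw [← Finset.mul_sum, Finset.sum_erase_eq_sub (mem_univ _), h2]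
          simp
      _ ≤ Dn * (2 * ((K : ℝ) + u) * a) := by
          refine mul_le_mul_of_nonneg_left ?_ hDn0.le
          have h4 : (1 + a) ^ (K + u) ≤ Real.exp (((K : ℝ) + u) * a) := by
            have h5 : 1 + a ≤ Real.exp a := by
              have := Real.add_one_le_exp a
              linarith
            calc (1 + a) ^ (K + u) ≤ (Real.exp a) ^ (K + u) :=
                  pow_le_pow_left₀ (by positivity) h5 _
              _ = Real.exp (((K : ℝ) + u) * a) := by
                  rw [← Real.exp_nat_mul]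
                  push_cast
                  ring_nf
          have h6 : ((K : ℝ) + u) * a ≤ 1 := by
            rw [ha, mul_one_div, div_le_one (by positivity)]
            exact_mod_cast hL
          have h7 := exp_le_two (t := ((K : ℝ) + u) * a) (by positivity) h6
          linarith
  have h4 : (((univ.filter fun g : Fin K × Fin u → Fin (d + 1) => ¬ Disc L g).card : ℕ) : ℝ) *
      2 ^ L ≤ 2 * ((K : ℝ) + u) * Dn := by
    calc _ ≤ Dn * (2 * ((K : ℝ) + u) * a) * 2 ^ L := by gcongr
      _ = 2 * ((K : ℝ) + u) * Dn * (a * 2 ^ L) := by ring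
      _ = 2 * ((K : ℝ) + u) * Dn := by
          rw [ha]
          field_simp
  rw [hDn] at h4
  exact_mod_cast h4

end Pool.Agent.SetIntLocal
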