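import Pool.Agent.SetIntLocal.Disc

/-!
# Decoding when one of the two sets is known
-/

namespace Pool.Agent.SetIntLocal

open Finset

variable {K u d A B s V : ℕ}

/-- the number of decoded occurrences; `g` is the known side -/
def Served (g h : Fin K × Fin u → Fin (d + 1)) (ad : Fin K → Fin K → Fin A → Fin s)
    (de : Fin K → Fin K → Fin A → Fin V → Finset (Fin u)) (M : Fin s → Fin V) : ℕ :=
  ∑ j, ∑ i, (univ.filter fun x => g (i, x) = 0 ∧ h (j, x) = 0 ∧
    ∃ a, x ∈ de i j a (M (ad i j a))).card

/-- the known sets that use the cell `c` for the unknown set `j` -/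
def Hs (ad : Fin K → Fin K → Fin A → Fin s) (c : Fin s) (j : Fin K) : Finset (Fin K) :=
  univ.filter fun i => ∃ a, ad i j a = c

/-- the number of nodes that use the cell `c` for the unknown set `j` -/
def nc (ad : Fin K → Fin K → Fin A → Fin s) (c : Fin s) (j : Fin K) : ℕ :=
  ∑ i, (univ.filter fun a => ad i j a = c).card

theorem card_Hs_le (ad : Fin K → Fin K → Fin A → Fin s) (c : Fin s) (j : Fin K) :
    (Hs ad c j).card ≤ nc ad c j := by
  unfold Hs nc
  rw [Finset.card_filter]
  refine Finset.sum_le_sum fun i _ => ?_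
  split_ifs with h
  · obtain ⟨a, ha⟩ := h
    exact Finset.card_pos.mpr ⟨a, by rw [mem_filter]; exact ⟨mem_univ _, ha⟩⟩
  · exact Nat.zero_le _

theorem sum_nc (ad : Fin K → Fin K → Fin A → Fin s) : ∑ c, ∑ j, nc ad c j = K * K * A := by
  unfold nc
  rw [Finset.sum_comm]
  have e : ∀ j i : Fin K, ∑ c, (univ.filter fun a => ad i j a = c).card = A := by
    intro j i
    have := Finset.card_eq_sum_card_fiberwise (s := (univ : Finset (Fin A)))
      (t := (univ : Finset (Fin s))) (f := fun a => ad i j a)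
      (fun _ _ => mem_coe.mpr (mem_univ _))
    rw [card_univ, Fintype.card_fin] at this
    exact this.symm
  have e2 : ∀ j : Fin K, ∑ c, ∑ i : Fin K, (univ.filter fun a => ad i j a = c).card = K * A := by
    intro j
    rw [Finset.sum_comm]
    simp only [e]
    rw [Finset.sum_const, card_univ, Fintype.card_fin, smul_eq_mul]
  simp only [e2]
  rw [Finset.sum_const, card_univ, Fintype.card_fin, smul_eq_mul, mul_assoc]

/-- the popularity of an element -/
def pop (g : Fin K × Fin u → Fin (d + 1)) (ad : Fin K → Fin K → Fin A → Fin s) (c : Fin s)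
    (j : Fin K) (x : Fin u) : ℕ :=
  ((Hs ad c j).filter fun i => g (i, x) = 0).card

/-- elements that are too popular -/
def heavy (g : Fin K × Fin u → Fin (d + 1)) (ad : Fin K → Fin K → Fin A → Fin s) (L : ℕ)
    (c : Fin s) (j : Fin K) (x : Fin u) : Prop :=
  4 * (Hs ad c j).card + 2 * ((d + 1) * L) < (d + 1) * pop g ad c j x

instance (g : Fin K × Fin u → Fin (d + 1)) (ad : Fin K → Fin K → Fin A → Fin s) (L : ℕ)
    (c : Fin s) (j : Fin K) (x : Fin u) : Decidable (heavy g ad L c j x) :=
  inferInstanceAs (Decidable (_ < _))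

theorem ee_sum (g : Fin K × Fin u → Fin (d + 1)) (H : Finset (Fin K)) (X : Finset (Fin u)) :
    ee g H X = ∑ x ∈ X, (H.filter fun i => g (i, x) = 0).card := by
  unfold ee
  simp only [Finset.card_filter]
  rw [Finset.sum_product_right]

theorem heavy_sum {L : ℕ} {g : Fin K × Fin u → Fin (d + 1)} (hg : Disc L g)
    (ad : Fin K → Fin K → Fin A → Fin s) (c : Fin s) (j : Fin K) :
    ∑ x, (if heavy g ad L c j x then pop g ad c j x else 0) ≤ 2 * L * nc ad c j := by
  refine le_trans ?_ (Nat.mul_le_mul_left _ (card_Hs_le ad c j))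
  set H := Hs ad c j with hH
  set X : Finset (Fin u) := univ.filter fun x => heavy g ad L c j x with hX
  have e : ∑ x, (if heavy g ad L c j x then pop g ad c j x else 0) = ee g H X := by
    rw [ee_sum, hX, Finset.sum_filter]
    rfl
  rw [e]
  have h1 := hg H X
  have h2 : X.card * (4 * H.card + 2 * ((d + 1) * L)) ≤ (d + 1) * ee g H X := by
    rw [ee_sum, Finset.mul_sum, ← smul_eq_mul, ← Finset.sum_const]
    refine Finset.sum_le_sum fun x hx => ?_
    rw [hX, mem_filter] at hx
    exact hx.2.le
  have h3 : X.card * (2 * H.card + (d + 1) * L) ≤ (d + 1) * L * H.card := by nlinarith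
  have h4 : (d + 1) * ee g H X ≤ (d + 1) * (2 * L * H.card) := by nlinarith
  exact Nat.le_of_mul_le_mul_left h4 (Nat.succ_pos d)

/-- the weights -/
def wt (g : Fin K × Fin u → Fin (d + 1)) (ad : Fin K → Fin K → Fin A → Fin s)
    (de : Fin K → Fin K → Fin A → Fin V → Finset (Fin u)) (c : Fin s) (v : Fin V)
    (j : Fin K) (x : Fin u) : ℕ :=
  (univ.filter fun i => g (i, x) = 0 ∧ ∃ a, ad i j a = c ∧ x ∈ de i j a v).card

theorem wt_le_pop (g : Fin K × Fin u → Fin (d + 1)) (ad : Fin K → Fin K → Fin A → Fin s)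
    (de : Fin K → Fin K → Fin A → Fin V → Finset (Fin u)) (c : Fin s) (v : Fin V)
    (j : Fin K) (x : Fin u) : wt g ad de c v j x ≤ pop g ad c j x := by
  unfold wt pop
  refine card_le_card fun i hi => ?_
  rw [mem_filter] at hi ⊢
  obtain ⟨-, h1, a, h2, -⟩ := hi
  refine ⟨?_, h1⟩
  unfold Hs
  rw [mem_filter]
  exact ⟨mem_univ _, a, h2⟩

theorem sum_wt (g : Fin K × Fin u → Fin (d + 1)) (ad : Fin K → Fin K → Fin A → Fin s)
    (de : Fin K → Fin K → Fin A → Fin V → Finset (Fin u))
    (hde : ∀ i j a v, (de i j a v).card ≤ B) (c : Fin s) (v : Fin V) (j : Fin K) :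
    ∑ x, wt g ad de c v j x ≤ B * nc ad c j := by
  have h1 : ∀ x, wt g ad de c v j x ≤
      ∑ i, ∑ a ∈ univ.filter fun a => ad i j a = c, if x ∈ de i j a v then 1 else 0 := by
    intro x
    unfold wt
    rw [Finset.card_filter]
    refine Finset.sum_le_sum fun i _ => ?_
    split_ifs with h
    · obtain ⟨-, a, ha, hd⟩ := h
      have hm : a ∈ univ.filter fun a => ad i j a = c := by
        rw [mem_filter]; exact ⟨mem_univ _, ha⟩
      have := Finset.single_le_sum (f := fun a => if x ∈ de i j a v then 1 else 0)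
        (fun _ _ => Nat.zero_le _) hm
      rw [if_pos hd] at this
      exact this
    · exact Nat.zero_le _
  refine (Finset.sum_le_sum fun x _ => h1 x).trans ?_
  rw [Finset.sum_comm]
  unfold nc
  rw [Finset.mul_sum]
  refine Finset.sum_le_sum fun i _ => ?_
  rw [Finset.sum_comm]
  rw [mul_comm, ← smul_eq_mul, ← Finset.sum_const]
  refine Finset.sum_le_sum fun a _ => ?_
  rw [Finset.sum_ite_mem, Finset.univ_inter, Finset.sum_const, smul_eq_mul, mul_one]
  exact hde i j a v

/-- light elements in small classes -/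
def X1 (g : Fin K × Fin u → Fin (d + 1)) (ad : Fin K → Fin K → Fin A → Fin s)
    (de : Fin K → Fin K → Fin A → Fin V → Finset (Fin u)) (L : ℕ) (c : Fin s) (v : Fin V)
    (b : Fin K × Fin u) : ℕ :=
  if (Hs ad c b.1).card ≤ (d + 1) * L ∧ ¬ heavy g ad L c b.1 b.2 then wt g ad de c v b.1 b.2
  else 0

/-- light elements in one large class -/
def X2 (g : Fin K × Fin u → Fin (d + 1)) (ad : Fin K → Fin K → Fin A → Fin s)
    (de : Fin K → Fin K → Fin A → Fin V → Finset (Fin u)) (L : ℕ) (c : Fin s) (v : Fin V)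
    (j : Fin K) (b : Fin K × Fin u) : ℕ :=
  if b.1 = j ∧ ¬ heavy g ad L c b.1 b.2 then wt g ad de c v b.1 b.2 else 0

/-- heavy elements -/
def X3 (g : Fin K × Fin u → Fin (d + 1)) (ad : Fin K → Fin K → Fin A → Fin s) (L : ℕ)
    (b : Fin K × Fin u) : ℕ :=
  (univ.filter fun i => g (i, b.2) = 0 ∧ ∃ a, heavy g ad L (ad i b.1 a) b.1 b.2).card

theorem X1_le (g : Fin K × Fin u → Fin (d + 1)) (ad : Fin K → Fin K → Fin A → Fin s)
    (de : Fin K → Fin K → Fin A → Fin V → Finset (Fin u)) (L : ℕ) (c : Fin s) (v : Fin V)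
    (b : Fin K × Fin u) : X1 g ad de L c v b ≤ 6 * L := by
  unfold X1
  split_ifs with h
  · obtain ⟨h1, h2⟩ := h
    have h3 := wt_le_pop g ad de c v b.1 b.2
    unfold heavy at h2
    push Not at h2
    have h4 : (d + 1) * pop g ad c b.1 b.2 ≤ (d + 1) * (6 * L) := by nlinarith
    exact h3.trans (Nat.le_of_mul_le_mul_left h4 (Nat.succ_pos d))
  · exact Nat.zero_le _

theorem sum_X1 (g : Fin K × Fin u → Fin (d + 1)) (ad : Fin K → Fin K → Fin A → Fin s)
    (de : Fin K → Fin K → Fin A → Fin V → Finset (Fin u))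
    (hde : ∀ i j a v, (de i j a v).card ≤ B) (L : ℕ) (c : Fin s) (v : Fin V) :
    ∑ b, X1 g ad de L c v b ≤ B * ∑ j, nc ad c j := by
  rw [Fintype.sum_prod_type, Finset.mul_sum]
  refine Finset.sum_le_sum fun j _ => le_trans (Finset.sum_le_sum fun x _ => ?_)
    (sum_wt g ad de hde c v j)
  unfold X1
  split_ifs
  · exact le_rfl
  · exact Nat.zero_le _

theorem X2_le (g : Fin K × Fin u → Fin (d + 1)) (ad : Fin K → Fin K → Fin A → Fin s)
    (de : Fin K → Fin K → Fin A → Fin V → Finset (Fin u)) (L : ℕ) (c : Fin s) (v : Fin V)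
    (j : Fin K) (hj : ¬ (Hs ad c j).card ≤ (d + 1) * L) (b : Fin K × Fin u) :
    X2 g ad de L c v j b ≤ 6 * (Hs ad c j).card / (d + 1) := by
  unfold X2
  split_ifs with h
  · obtain ⟨h1, h2⟩ := h
    have h3 := wt_le_pop g ad de c v b.1 b.2
    refine h3.trans ?_
    unfold heavy at h2
    push Not at h2
    rw [h1] at h2 ⊢
    rw [Nat.le_div_iff_mul_le (Nat.succ_pos d)]
    push Not at hj
    nlinarith
  · exact Nat.zero_le _

theorem sum_X2 (g : Fin K × Fin u → Fin (d + 1)) (ad : Fin K → Fin K → Fin A → Fin s)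
    (de : Fin K → Fin K → Fin A → Fin V → Finset (Fin u))
    (hde : ∀ i j a v, (de i j a v).card ≤ B) (L : ℕ) (c : Fin s) (v : Fin V) (j : Fin K) :
    ∑ b, X2 g ad de L c v j b ≤ B * nc ad c j := by
  rw [Fintype.sum_prod_type]
  rw [Finset.sum_eq_single j]
  · refine le_trans (Finset.sum_le_sum fun x _ => ?_) (sum_wt g ad de hde c v j)
    unfold X2
    split_ifs
    · exact le_rfl
    · exact Nat.zero_le _
  · intro j' _ hj'
    refine Finset.sum_eq_zero fun x _ => ?_
    unfold X2
    rw [if_neg]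
    rintro ⟨h, -⟩
    exact hj' h
  · intro h
    exact absurd (mem_univ j) h

theorem X3_le (g : Fin K × Fin u → Fin (d + 1)) (ad : Fin K → Fin K → Fin A → Fin s) (L : ℕ)
    (b : Fin K × Fin u) : X3 g ad L b ≤ K := by
  unfold X3
  refine (card_filter_le _ _).trans ?_
  rw [card_univ, Fintype.card_fin]

theorem sum_X3 {L : ℕ} {g : Fin K × Fin u → Fin (d + 1)} (hg : Disc L g)
    (ad : Fin K → Fin K → Fin A → Fin s) :
    ∑ b, X3 g ad L b ≤ 2 * L * (K * K * A) := by
  have h1 : ∀ j x, X3 g ad L (j, x) ≤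
      ∑ c, if heavy g ad L c j x then pop g ad c j x else 0 := by
    intro j x
    have e : ∀ c, (if heavy g ad L c j x then pop g ad c j x else 0) =
        (univ.filter fun i => (g (i, x) = 0 ∧ ∃ a, ad i j a = c) ∧ heavy g ad L c j x).card := by
      intro c
      split_ifs with h
      · unfold pop Hs
        rw [Finset.filter_filter]
        congr 1
        ext i
        simp only [mem_filter, mem_univ, true_and, h, and_true]
        tauto
      · symm
        rw [card_eq_zero, filter_eq_empty_iff]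
        rintro i - ⟨-, h'⟩
        exact h h'
    simp only [e]
    refine le_trans (card_le_card ?_) card_biUnion_le
    intro i hi
    rw [mem_filter] at hi
    obtain ⟨-, h2, a, h3⟩ := hi
    rw [mem_biUnion]
    refine ⟨ad i j a, mem_univ _, ?_⟩
    rw [mem_filter]
    exact ⟨mem_univ _, ⟨h2, a, rfl⟩, h3⟩
  rw [Fintype.sum_prod_type]
  calc ∑ j, ∑ x, X3 g ad L (j, x)
      ≤ ∑ j, ∑ x, ∑ c, (if heavy g ad L c j x then pop g ad c j x else 0) :=
        Finset.sum_le_sum fun j _ => Finset.sum_le_sum fun x _ => h1 j x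
    _ = ∑ c, ∑ j, ∑ x, (if heavy g ad L c j x then pop g ad c j x else 0) := by
        rw [Finset.sum_comm]
        have : ∀ j : Fin K, ∑ x, ∑ c, (if heavy g ad L c j x then pop g ad c j x else 0) =
            ∑ c, ∑ x, (if heavy g ad L c j x then pop g ad c j x else 0) :=
          fun j => Finset.sum_comm
        rw [Finset.sum_comm]
        simp only [this]
        rw [Finset.sum_comm]
    _ ≤ ∑ c, ∑ j, 2 * L * nc ad c j :=
        Finset.sum_le_sum fun c _ => Finset.sum_le_sum fun j _ => heavy_sum hg ad c j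
    _ = 2 * L * (K * K * A) := by
        simp only [← Finset.mul_sum]
        rw [sum_nc]

/-- splitting of the decoded occurrences -/
theorem served_le (g h : Fin K × Fin u → Fin (d + 1)) (ad : Fin K → Fin K → Fin A → Fin s)
    (de : Fin K → Fin K → Fin A → Fin V → Finset (Fin u)) (L : ℕ) (M : Fin s → Fin V) :
    Served g h ad de M ≤ (∑ c, ∑ b, if h b = 0 then X1 g ad de L c (M c) b else 0) +
      (∑ c, ∑ j, if (Hs ad c j).card ≤ (d + 1) * L then 0 else
        ∑ b, if h b = 0 then X2 g ad de L c (M c) j b else 0) +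
      ∑ b, if h b = 0 then X3 g ad L b else 0 := by
  -- a single pair
  have h1 : ∀ j i, (univ.filter fun x => g (i, x) = 0 ∧ h (j, x) = 0 ∧
      ∃ a, x ∈ de i j a (M (ad i j a))).card ≤
      (∑ x, if h (j, x) = 0 then
        (if g (i, x) = 0 ∧ ∃ a, heavy g ad L (ad i j a) j x then 1 else 0) else 0) +
      ∑ x, if h (j, x) = 0 then ∑ c, (if ¬ heavy g ad L c j x then
        (if g (i, x) = 0 ∧ ∃ a, ad i j a = c ∧ x ∈ de i j a (M c) then 1 else 0) else 0)
          else 0 := by
    intro j i
    rw [Finset.card_filter, ← Finset.sum_add_distrib]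
    refine Finset.sum_le_sum fun x _ => ?_
    by_cases hx : g (i, x) = 0 ∧ h (j, x) = 0 ∧ ∃ a, x ∈ de i j a (M (ad i j a))
    · rw [if_pos hx]
      obtain ⟨hg0, hh0, a, ha⟩ := hx
      rw [if_pos hh0, if_pos hh0]
      by_cases hhv : heavy g ad L (ad i j a) j x
      · rw [if_pos ⟨hg0, a, hhv⟩]
        omega
      · have := Finset.single_le_sum (f := fun c => (if ¬ heavy g ad L c j x then
          (if g (i, x) = 0 ∧ ∃ a, ad i j a = c ∧ x ∈ de i j a (M c) then 1 else 0) else 0))
          (fun _ _ => Nat.zero_le _) (mem_univ (ad i j a))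
        rw [if_pos hhv, if_pos ⟨hg0, a, rfl, ha⟩] at this
        omega
    · rw [if_neg hx]
      exact Nat.zero_le _
  -- sum over the known sets
  have h2 : ∀ j, ∑ i, (univ.filter fun x => g (i, x) = 0 ∧ h (j, x) = 0 ∧
      ∃ a, x ∈ de i j a (M (ad i j a))).card ≤
      (∑ x, if h (j, x) = 0 then X3 g ad L (j, x) else 0) +
      ∑ c, ∑ x, if h (j, x) = 0 then (if ¬ heavy g ad L c j x then wt g ad de c (M c) j x
        else 0) else 0 := by
    intro j
    refine (Finset.sum_le_sum fun i _ => h1 j i).trans ?_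
    rw [Finset.sum_add_distrib]
    refine Nat.add_le_add (le_of_eq ?_) (le_of_eq ?_)
    · rw [Finset.sum_comm]
      refine Finset.sum_congr rfl fun x _ => ?_
      split_ifs with hx
      · unfold X3
        rw [Finset.card_filter]
      · simp
    · rw [Finset.sum_comm, Finset.sum_comm (s := (univ : Finset (Fin s)))]
      refine Finset.sum_congr rfl fun x _ => ?_
      split_ifs with hx
      · rw [Finset.sum_comm]
        refine Finset.sum_congr rfl fun c _ => ?_
        by_cases hc : heavy g ad L c j x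
        · simp only [hc, not_true_eq_false, if_false, Finset.sum_const_zero]
        · simp only [hc, not_false_eq_true, if_true]
          unfold wt
          rw [Finset.card_filter]
      · simp
  -- splitting in small and large classes
  have h3 : ∀ c j, (∑ x, if h (j, x) = 0 then (if ¬ heavy g ad L c j x then
      wt g ad de c (M c) j x else 0) else 0) ≤
      (∑ x, if h (j, x) = 0 then X1 g ad de L c (M c) (j, x) else 0) +
      if (Hs ad c j).card ≤ (d + 1) * L then 0 else
        ∑ b, if h b = 0 then X2 g ad de L c (M c) j b else 0 := by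
    intro c j
    split_ifs with hj
    · rw [add_zero]
      refine le_of_eq (Finset.sum_congr rfl fun x _ => ?_)
      unfold X1
      simp only [hj, true_and]
    · refine le_trans (le_of_eq ?_) (Nat.le_add_left _ _)
      rw [Fintype.sum_prod_type, Finset.sum_eq_single j]
      · refine Finset.sum_congr rfl fun x _ => ?_
        unfold X2
        simp only [true_and]
      · intro j' _ hj'
        refine Finset.sum_eq_zero fun x _ => ?_
        unfold X2
        simp only [hj', false_and, if_false, ite_self]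
      · intro h'
        exact absurd (mem_univ j) h'
  unfold Served
  calc ∑ j, ∑ i, (univ.filter fun x => g (i, x) = 0 ∧ h (j, x) = 0 ∧
      ∃ a, x ∈ de i j a (M (ad i j a))).card
      ≤ ∑ j, ((∑ x, if h (j, x) = 0 then X3 g ad L (j, x) else 0) +
        ∑ c, ((∑ x, if h (j, x) = 0 then X1 g ad de L c (M c) (j, x) else 0) +
      if (Hs ad c j).card ≤ (d + 1) * L then 0 else
        ∑ b, if h b = 0 then X2 g ad de L c (M c) j b else 0)) :=
        Finset.sum_le_sum fun j _ => (h2 j).trans
          (Nat.add_le_add_left (Finset.sum_le_sum fun c _ => h3 c j) _)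
    _ = (∑ c, ∑ j, ∑ x, if h (j, x) = 0 then X1 g ad de L c (M c) (j, x) else 0) +
      (∑ c, ∑ j, if (Hs ad c j).card ≤ (d + 1) * L then 0 else
        ∑ b, if h b = 0 then X2 g ad de L c (M c) j b else 0) +
      ∑ j, ∑ x, if h (j, x) = 0 then X3 g ad L (j, x) else 0 := by
        rw [Finset.sum_add_distrib]
        simp only [Finset.sum_add_distrib]
        rw [Finset.sum_comm (s := (univ : Finset (Fin K))) (t := (univ : Finset (Fin s)))
            (f := fun j c => ∑ x, if h (j, x) = 0 then X1 g ad de L c (M c) (j, x) else 0),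
          Finset.sum_comm (s := (univ : Finset (Fin K))) (t := (univ : Finset (Fin s)))
            (f := fun j c => if (Hs ad c j).card ≤ (d + 1) * L then 0 else
              ∑ b, if h b = 0 then X2 g ad de L c (M c) j b else 0)]
        ring
    _ = _ := by
        simp only [Fintype.sum_prod_type]

/-- The bound for all but few choices of the unknown side. -/
theorem one_side {L : ℕ} (hL : 1 ≤ L) {g : Fin K × Fin u → Fin (d + 1)} (hK : 1 ≤ K)
    (hg : Disc L g)
    (ad : Fin K → Fin K → Fin A → Fin s) (de : Fin K → Fin K → Fin A → Fin V → Finset (Fin u))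
    (hde : ∀ i j a v, (de i j a v).card ≤ B) :
    ∃ bad : Finset (Fin K × Fin u → Fin (d + 1)),
      bad.card * 2 ^ L ≤ (s * V * (K + 1) + 1) * (d + 1) ^ (K * u) ∧
      ∀ h, h ∉ bad → ∀ M : Fin s → Fin V,
        (d + 1) * Served g h ad de M ≤
          (4 * B + 10 * L) * (K * K * A) + s * ((d + 1) * (6 * L * L)) + (d + 1) * (K * L) := by
  classical
  have hcard : Fintype.card (Fin K × Fin u) = K * u := by
    rw [Fintype.card_prod, Fintype.card_fin, Fintype.card_fin]
  set T1 : Fin s × Fin V → Finset (Fin K × Fin u → Fin (d + 1)) := fun p =>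
    univ.filter fun h => 2 * (∑ b, X1 g ad de L p.1 p.2 b) + (d + 1) * (6 * L * L) ≤
      (d + 1) * ∑ b, if h b = 0 then X1 g ad de L p.1 p.2 b else 0 with hT1
  set T2 : (Fin s × Fin V) × Fin K → Finset (Fin K × Fin u → Fin (d + 1)) := fun p =>
    if (Hs ad p.1.1 p.2).card ≤ (d + 1) * L then ∅ else
    univ.filter fun h => 2 * (∑ b, X2 g ad de L p.1.1 p.1.2 p.2 b) +
      (d + 1) * (6 * (Hs ad p.1.1 p.2).card / (d + 1) * L) ≤
      (d + 1) * ∑ b, if h b = 0 then X2 g ad de L p.1.1 p.1.2 p.2 b else 0 with hT2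
  set T3 : Finset (Fin K × Fin u → Fin (d + 1)) :=
    univ.filter fun h => 2 * (∑ b, X3 g ad L b) + (d + 1) * (K * L) ≤
      (d + 1) * ∑ b, if h b = 0 then X3 g ad L b else 0 with hT3
  have c1 : ∀ p, (T1 p).card * 2 ^ L ≤ (d + 1) ^ (K * u) := by
    intro p
    rw [← hcard]
    exact tail d (6 * L) L (by omega) (X1 g ad de L p.1 p.2) (X1_le g ad de L p.1 p.2)
  have c2 : ∀ p, (T2 p).card * 2 ^ L ≤ (d + 1) ^ (K * u) := by
    intro p
    rw [hT2]
    simp only
    split_ifs with hp
    · simp
    · rw [← hcard]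
      refine tail d (6 * (Hs ad p.1.1 p.2).card / (d + 1)) L ?_ (X2 g ad de L p.1.1 p.1.2 p.2)
        (X2_le g ad de L p.1.1 p.1.2 p.2 hp)
      rw [Nat.le_div_iff_mul_le (Nat.succ_pos d)]
      push Not at hp
      nlinarith
  have c3 : T3.card * 2 ^ L ≤ (d + 1) ^ (K * u) := by
    rw [← hcard]
    exact tail d K L hK (X3 g ad L) (X3_le g ad L)
  refine ⟨(univ.biUnion T1 ∪ univ.biUnion T2) ∪ T3, ?_, ?_⟩
  · have h1 : (univ.biUnion T1).card * 2 ^ L ≤ s * V * (d + 1) ^ (K * u) := by
      calc (univ.biUnion T1).card * 2 ^ L ≤ (∑ p, (T1 p).card) * 2 ^ L :=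
            Nat.mul_le_mul_right _ card_biUnion_le
        _ = ∑ p, (T1 p).card * 2 ^ L := by rw [Finset.sum_mul]
        _ ≤ ∑ _p : Fin s × Fin V, (d + 1) ^ (K * u) := Finset.sum_le_sum fun p _ => c1 p
        _ = s * V * (d + 1) ^ (K * u) := by
            rw [Finset.sum_const, card_univ, Fintype.card_prod, Fintype.card_fin,
              Fintype.card_fin, smul_eq_mul]
    have h2 : (univ.biUnion T2).card * 2 ^ L ≤ s * V * K * (d + 1) ^ (K * u) := by
      calc (univ.biUnion T2).card * 2 ^ L ≤ (∑ p, (T2 p).card) * 2 ^ L :=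
            Nat.mul_le_mul_right _ card_biUnion_le
        _ = ∑ p, (T2 p).card * 2 ^ L := by rw [Finset.sum_mul]
        _ ≤ ∑ _p : (Fin s × Fin V) × Fin K, (d + 1) ^ (K * u) :=
            Finset.sum_le_sum fun p _ => c2 p
        _ = s * V * K * (d + 1) ^ (K * u) := by
            rw [Finset.sum_const, card_univ, Fintype.card_prod, Fintype.card_prod,
              Fintype.card_fin, Fintype.card_fin, Fintype.card_fin, smul_eq_mul]
    calc ((univ.biUnion T1 ∪ univ.biUnion T2) ∪ T3).card * 2 ^ L
        ≤ ((univ.biUnion T1).card + (univ.biUnion T2).card + T3.card) * 2 ^ L := by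
          apply Nat.mul_le_mul_right
          refine (card_union_le _ _).trans (Nat.add_le_add_right (card_union_le _ _) _)
      _ = (univ.biUnion T1).card * 2 ^ L + (univ.biUnion T2).card * 2 ^ L + T3.card * 2 ^ L := by
          ring
      _ ≤ s * V * (d + 1) ^ (K * u) + s * V * K * (d + 1) ^ (K * u) + (d + 1) ^ (K * u) :=
          Nat.add_le_add (Nat.add_le_add h1 h2) c3
      _ = _ := by ring
  · intro h hh M
    rw [mem_union, mem_union, not_or, not_or, mem_biUnion, mem_biUnion] at hh
    obtain ⟨⟨n1, n2⟩, n3⟩ := hh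
    push Not at n1 n2
    have b1 : ∀ c, (d + 1) * (∑ b, if h b = 0 then X1 g ad de L c (M c) b else 0) ≤
        2 * B * (∑ j, nc ad c j) + (d + 1) * (6 * L * L) := by
      intro c
      have h1 := n1 (c, M c) (mem_univ _)
      rw [hT1] at h1
      simp only [mem_filter, mem_univ, true_and, not_le] at h1
      have h2 := sum_X1 g ad de hde L c (M c)
      nlinarith
    have b2 : ∀ c j, (d + 1) * (if (Hs ad c j).card ≤ (d + 1) * L then 0 else
        ∑ b, if h b = 0 then X2 g ad de L c (M c) j b else 0) ≤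
        (2 * B + 6 * L) * nc ad c j := by
      intro c j
      split_ifs with hj
      · simp
      · have h1 := n2 ((c, M c), j) (mem_univ _)
        rw [hT2] at h1
        simp only [hj, if_false, mem_filter, mem_univ, true_and, not_le] at h1
        have h2 := sum_X2 g ad de hde L c (M c) j
        have h3 := Nat.mul_div_le (6 * (Hs ad c j).card) (d + 1)
        have h4 := card_Hs_le ad c j
        have h5 : (d + 1) * (6 * (Hs ad c j).card / (d + 1) * L) ≤ 6 * nc ad c j * L := by
          calc (d + 1) * (6 * (Hs ad c j).card / (d + 1) * L) =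
              ((d + 1) * (6 * (Hs ad c j).card / (d + 1))) * L := by ring
            _ ≤ (6 * nc ad c j) * L := Nat.mul_le_mul_right _ (h3.trans (by omega))
        nlinarith
    have b3 : (d + 1) * (∑ b, if h b = 0 then X3 g ad L b else 0) ≤
        4 * L * (K * K * A) + (d + 1) * (K * L) := by
      rw [hT3] at n3
      simp only [mem_filter, mem_univ, true_and, not_le] at n3
      have h2 := sum_X3 hg ad
      nlinarith
    have s1 : (d + 1) * (∑ c, ∑ b, if h b = 0 then X1 g ad de L c (M c) b else 0) ≤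
        2 * B * (K * K * A) + s * ((d + 1) * (6 * L * L)) := by
      rw [Finset.mul_sum]
      refine (Finset.sum_le_sum fun c _ => b1 c).trans (le_of_eq ?_)
      rw [Finset.sum_add_distrib, ← Finset.mul_sum, sum_nc, Finset.sum_const, card_univ,
        Fintype.card_fin, smul_eq_mul]
    have s2 : (d + 1) * (∑ c, ∑ j, if (Hs ad c j).card ≤ (d + 1) * L then 0 else
        ∑ b, if h b = 0 then X2 g ad de L c (M c) j b else 0) ≤
        (2 * B + 6 * L) * (K * K * A) := by
      rw [← sum_nc ad]
      simp only [Finset.mul_sum]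
      exact Finset.sum_le_sum fun c _ => Finset.sum_le_sum fun j _ => b2 c j
    have s0 := served_le g h ad de L M
    calc (d + 1) * Served g h ad de M ≤ (d + 1) *
          ((∑ c, ∑ b, if h b = 0 then X1 g ad de L c (M c) b else 0) +
          (∑ c, ∑ j, if (Hs ad c j).card ≤ (d + 1) * L then 0 else
            ∑ b, if h b = 0 then X2 g ad de L c (M c) j b else 0) +
          ∑ b, if h b = 0 then X3 g ad L b else 0) := Nat.mul_le_mul_left _ s0
      _ = (d + 1) * (∑ c, ∑ b, if h b = 0 then X1 g ad de L c (M c) b else 0) +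
          (d + 1) * (∑ c, ∑ j, if (Hs ad c j).card ≤ (d + 1) * L then 0 else
            ∑ b, if h b = 0 then X2 g ad de L c (M c) j b else 0) +
          (d + 1) * ∑ b, if h b = 0 then X3 g ad L b else 0 := by ring
      _ ≤ (2 * B * (K * K * A) + s * ((d + 1) * (6 * L * L))) +
          (2 * B + 6 * L) * (K * K * A) + (4 * L * (K * K * A) + (d + 1) * (K * L)) :=
          Nat.add_le_add (Nat.add_le_add s1 s2) b3
      _ = _ := by ring

end Pool.Agent.SetIntLocal
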