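import Pool.Agent.SetIntLocal.Moments
import Pool.Agent.SetIntLocal.OneSide
import Pool.Agent.SetIntLocal.Defs

/-!
# The random families and the inequality for one of them
-/

namespace Pool.Agent.SetIntLocal

open Finset

variable {K u d : ℕ}

/-- the sets given by a function -/
def Lset (g : Fin K × Fin u → Fin (d + 1)) (i : Fin K) : Finset ℕ :=
  (univ.filter fun x : Fin u => g (i, x) = 0).map Fin.valEmbedding

theorem mem_Lset (g : Fin K × Fin u → Fin (d + 1)) (i : Fin K) (x : ℕ) :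
    x ∈ Lset g i ↔ ∃ h : x < u, g (i, ⟨x, h⟩) = 0 := by
  unfold Lset
  simp only [mem_map, mem_filter, mem_univ, true_and, Fin.valEmbedding_apply]
  constructor
  · rintro ⟨y, hy, rfl⟩
    exact ⟨y.2, hy⟩
  · rintro ⟨h, hx⟩
    exact ⟨⟨x, h⟩, hx, rfl⟩

theorem sum_card_Lset (g : Fin K × Fin u → Fin (d + 1)) :
    ∑ i, (Lset g i).card = (univ.filter fun p => g p = 0).card := by
  unfold Lset
  simp only [card_map, Finset.card_filter]
  rw [Fintype.sum_prod_type]

/-- the indices of the left sets -/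
def li (K : ℕ) (i : Fin K) : Fin (K + K + 1) := (Fin.castAdd K i).castSucc

/-- the indices of the right sets -/
def ri (K : ℕ) (i : Fin K) : Fin (K + K + 1) := (Fin.natAdd K i).castSucc

theorem li_ne_ri (i j : Fin K) : li K i ≠ ri K j := by
  unfold li ri
  intro h
  have := congrArg Fin.val h
  simp at this
  have := i.2
  omega

/-- the family of total size `N` -/
def fam (N : ℕ) (ω : Om K u d) : Fin (K + K + 1) → Finset ℕ :=
  Fin.snoc (α := fun _ => Finset ℕ) (Fin.append (Lset ω.1) (Lset ω.2)) (range (N - size ω))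

theorem fam_li (N : ℕ) (ω : Om K u d) (i : Fin K) : fam N ω (li K i) = Lset ω.1 i := by
  unfold fam li
  rw [Fin.snoc_castSucc, Fin.append_left]

theorem fam_ri (N : ℕ) (ω : Om K u d) (i : Fin K) : fam N ω (ri K i) = Lset ω.2 i := by
  unfold fam ri
  rw [Fin.snoc_castSucc, Fin.append_right]

theorem fam_isFamily (N w : ℕ) (ω : Om K u d) (hs : size ω ≤ N) (hN : N ≤ 2 ^ w)
    (hu : u ≤ 2 ^ w) : IsFamily N w (fam N ω) := by
  constructor
  · intro i x hx
    induction i using Fin.lastCases with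
    | last =>
      unfold fam at hx
      rw [Fin.snoc_last, mem_range] at hx
      omega
    | cast i =>
      unfold fam at hx
      rw [Fin.snoc_castSucc] at hx
      induction i using Fin.addCases with
      | left i =>
        rw [Fin.append_left, mem_Lset] at hx
        obtain ⟨h, -⟩ := hx
        omega
      | right i =>
        rw [Fin.append_right, mem_Lset] at hx
        obtain ⟨h, -⟩ := hx
        omega
  · unfold fam
    rw [Fin.sum_univ_castSucc]
    simp only [Fin.snoc_castSucc, Fin.snoc_last, card_range]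
    rw [Fin.sum_univ_add]
    simp only [Fin.append_left, Fin.append_right]
    rw [sum_card_Lset, sum_card_Lset]
    have : size ω = (univ.filter fun p => ω.1 p = 0).card +
      (univ.filter fun p => ω.2 p = 0).card := rfl
    omega

theorem inter_card (N : ℕ) (ω : Om K u d) (i j : Fin K) :
    (fam N ω (li K i) ∩ fam N ω (ri K j)).card = XX ω i j := by
  rw [fam_li, fam_ri]
  have e : Lset ω.1 i ∩ Lset ω.2 j =
      (univ.filter fun x : Fin u => ω.1 (i, x) = 0 ∧ ω.2 (j, x) = 0).map Fin.valEmbedding := by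
    ext x
    rw [mem_inter, mem_Lset, mem_Lset]
    simp only [mem_map, mem_filter, mem_univ, true_and, Fin.valEmbedding_apply]
    constructor
    · rintro ⟨⟨h, h1⟩, ⟨h', h2⟩⟩
      exact ⟨⟨x, h⟩, ⟨h1, h2⟩, rfl⟩
    · rintro ⟨y, ⟨h1, h2⟩, rfl⟩
      exact ⟨⟨y.2, h1⟩, ⟨y.2, h2⟩⟩
  rw [e, card_map]
  rfl

variable {A B s w m : ℕ}

/-- the addresses; the side `g` is known -/
def adr (𝒟 : Scheme A B s w m) (p q : Fin K → Fin m) (δ : Fin (2 ^ w))
    (g : Fin K × Fin u → Fin (d + 1)) (i j : Fin K) (a : Fin A) : Fin s :=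
  𝒟.addr δ (p i) (q j) a (Lset g i)

/-- the decoded elements; the side `g` is known -/
def der (𝒟 : Scheme A B s w m) (p q : Fin K → Fin m) (δ : Fin (2 ^ w))
    (g : Fin K × Fin u → Fin (d + 1)) (i j : Fin K) (a : Fin A) (v : Fin (2 ^ w)) :
    Finset (Fin u) :=
  univ.filter fun x : Fin u => (x : ℕ) ∈ 𝒟.dec δ (p i) (q j) a (Lset g i) v

theorem der_card (𝒟 : Scheme A B s w m) (p q : Fin K → Fin m) (δ : Fin (2 ^ w))
    (g : Fin K × Fin u → Fin (d + 1)) (i j : Fin K) (a : Fin A) (v : Fin (2 ^ w)) :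
    (der 𝒟 p q δ g i j a v).card ≤ B := by
  refine le_trans ?_ (𝒟.card_le δ (p i) (q j) a (Lset g i) v)
  rw [← card_map Fin.valEmbedding]
  refine card_le_card fun z hz => ?_
  rw [mem_map] at hz
  obtain ⟨y, hy, rfl⟩ := hz
  unfold der at hy
  rw [mem_filter] at hy
  exact hy.2

/-- if the family is served, all occurrences are decoded -/
theorem cover (𝒟 : Scheme A B s w (K + K + 1)) (T N : ℕ) (ω : Om K u d)
    (δ : Fin (2 ^ w)) (M : Fin s → Fin (2 ^ w))
    (hM : ∀ i j, i ≠ j → (fam N ω i ∩ fam N ω j).card ≤ T →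
      ∀ x ∈ fam N ω i ∩ fam N ω j,
        𝒟.Decodes (fam N ω) δ M i j x ∨ 𝒟.Decodes (fam N ω) δ M j i x) :
    ∑ j, ∑ i, YY T ω i j ≤
      Served ω.1 ω.2 (adr 𝒟 (li K) (ri K) δ ω.1) (der 𝒟 (li K) (ri K) δ ω.1) M +
      Served ω.2 ω.1 (adr 𝒟 (ri K) (li K) δ ω.2) (der 𝒟 (ri K) (li K) δ ω.2) M := by
  classical
  unfold Served
  rw [Finset.sum_comm (f := fun j i => (univ.filter fun x => ω.2 (i, x) = 0 ∧ ω.1 (j, x) = 0 ∧
    ∃ a, x ∈ der 𝒟 (ri K) (li K) δ ω.2 i j a (M (adr 𝒟 (ri K) (li K) δ ω.2 i j a))).card),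
    ← Finset.sum_add_distrib]
  refine Finset.sum_le_sum fun j _ => ?_
  rw [← Finset.sum_add_distrib]
  refine Finset.sum_le_sum fun i _ => ?_
  unfold YY
  split_ifs with hT
  · refine le_trans (card_le_card ?_) (card_union_le _ _)
    intro x hx
    rw [mem_filter] at hx
    obtain ⟨-, hx1, hx2⟩ := hx
    have hmem : (x : ℕ) ∈ fam N ω (li K i) ∩ fam N ω (ri K j) := by
      rw [mem_inter, fam_li, fam_ri, mem_Lset, mem_Lset]
      exact ⟨⟨x.2, hx1⟩, ⟨x.2, hx2⟩⟩
    rw [mem_union, mem_filter, mem_filter]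
    rcases hM (li K i) (ri K j) (li_ne_ri i j) (by rw [inter_card]; exact hT) x hmem with h | h
    · left
      obtain ⟨a, ha⟩ := h
      refine ⟨mem_univ _, hx1, hx2, a, ?_⟩
      unfold der adr
      rw [mem_filter]
      rw [fam_li] at ha
      exact ⟨mem_univ _, ha⟩
    · right
      obtain ⟨a, ha⟩ := h
      refine ⟨mem_univ _, hx2, hx1, a, ?_⟩
      unfold der adr
      rw [mem_filter]
      rw [fam_ri] at ha
      exact ⟨mem_univ _, ha⟩
  · exact Nat.zero_le _

/-- the bad choices of the unknown side, for each choice of the known side -/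
theorem side_bad (𝒟 : Scheme A B s w m) (p q : Fin K → Fin m) (u d : ℕ) {L : ℕ} (hL : 1 ≤ L)
    (hK : 1 ≤ K) :
    ∃ Bad : (Fin K × Fin u → Fin (d + 1)) → Finset (Fin K × Fin u → Fin (d + 1)),
      (∀ g, (Bad g).card * 2 ^ L ≤
        2 ^ w * (s * 2 ^ w * (K + 1) + 1) * (d + 1) ^ (K * u)) ∧
      ∀ g, Disc L g → ∀ h, h ∉ Bad g → ∀ (δ : Fin (2 ^ w)) (M : Fin s → Fin (2 ^ w)),
        (d + 1) * Served g h (adr 𝒟 p q δ g) (der 𝒟 p q δ g) M ≤
          (4 * B + 10 * L) * (K * K * A) + s * ((d + 1) * (6 * L * L)) + (d + 1) * (K * L) := by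
  classical
  have h1 : ∀ (g : Fin K × Fin u → Fin (d + 1)) (δ : Fin (2 ^ w)),
      ∃ bad : Finset (Fin K × Fin u → Fin (d + 1)),
      bad.card * 2 ^ L ≤ (s * 2 ^ w * (K + 1) + 1) * (d + 1) ^ (K * u) ∧
      (Disc L g → ∀ h, h ∉ bad → ∀ M : Fin s → Fin (2 ^ w),
        (d + 1) * Served g h (adr 𝒟 p q δ g) (der 𝒟 p q δ g) M ≤
          (4 * B + 10 * L) * (K * K * A) + s * ((d + 1) * (6 * L * L)) +
            (d + 1) * (K * L)) := by
    intro g δ
    by_cases hg : Disc L g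
    · obtain ⟨bad, hb1, hb2⟩ := one_side hL hK hg (adr 𝒟 p q δ g) (der 𝒟 p q δ g)
        (der_card 𝒟 p q δ g)
      exact ⟨bad, hb1, fun _ => hb2⟩
    · exact ⟨∅, by simp, fun h => absurd h hg⟩
  choose bad hb1 hb2 using h1
  refine ⟨fun g => univ.biUnion (bad g), fun g => ?_, fun g hg h hh δ M => ?_⟩
  · calc (univ.biUnion (bad g)).card * 2 ^ L ≤ (∑ δ, (bad g δ).card) * 2 ^ L :=
          Nat.mul_le_mul_right _ card_biUnion_le
      _ = ∑ δ, (bad g δ).card * 2 ^ L := by rw [Finset.sum_mul]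
      _ ≤ ∑ _δ : Fin (2 ^ w), (s * 2 ^ w * (K + 1) + 1) * (d + 1) ^ (K * u) :=
          Finset.sum_le_sum fun δ _ => hb1 g δ
      _ = _ := by
          rw [Finset.sum_const, card_univ, Fintype.card_fin, smul_eq_mul]
          ring
  · refine hb2 g δ hg h (fun hc => hh ?_) M
    rw [mem_biUnion]
    exact ⟨δ, mem_univ _, hc⟩

end Pool.Agent.SetIntLocal
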