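import Pool.Agent.SetIntLocal.Fam

/-!
# The lower bound
-/

namespace Pool.Agent.SetIntLocal

open Finset

/-- the threshold is at most the number of elements that can be decoded -/
theorem T_le {N T A B s w : ℕ} (hB : 1 ≤ A * B) (hN : 100 * (A * B) ≤ N) (hw : N ^ 2 ≤ 2 ^ w)
    (H : Solvable N T A B s w) : T ≤ 2 * (A * B) := by
  classical
  by_contra hc
  push Not at hc
  obtain ⟨𝒟, h𝒟⟩ := H 3 (by omega)
  set n := 2 * (A * B) + 1 with hn
  have hNn : 2 * n ≤ N := by omega
  have hN2 : N ≤ 2 ^ w := by nlinarith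
  set F : Fin 3 → Finset ℕ := ![range n, range n, range (N - 2 * n)] with hF
  have hfam : IsFamily N w F := by
    constructor
    · intro i x hx
      have h1 : F i ⊆ range N := by
        fin_cases i
        · exact range_subset_range.mpr (by omega)
        · exact range_subset_range.mpr (by omega)
        · exact range_subset_range.mpr (by omega)
      have := mem_range.mp (h1 hx)
      omega
    · rw [Fin.sum_univ_three, hF]
      simp only [Matrix.cons_val_zero, Matrix.cons_val_one, Matrix.cons_val, card_range]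
      omega
  obtain ⟨δ, M, hM⟩ := h𝒟 F hfam
  have h0 : F 0 ∩ F 1 = range n := by
    rw [hF]
    simp
  have h1 := hM 0 1 (by decide) (by rw [h0, card_range]; omega)
  rw [h0] at h1
  set U : Fin 3 → Fin 3 → Finset ℕ := fun i j =>
    univ.biUnion fun a => 𝒟.dec δ i j a (F i) (M (𝒟.addr δ i j a (F i))) with hU
  have hUc : ∀ i j, (U i j).card ≤ A * B := by
    intro i j
    refine card_biUnion_le.trans ?_
    have h4 : ∑ a : Fin A, (𝒟.dec δ i j a (F i) (M (𝒟.addr δ i j a (F i)))).card ≤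
        ∑ _a : Fin A, B := Finset.sum_le_sum fun a _ => 𝒟.card_le _ _ _ _ _ _
    rw [Finset.sum_const, card_univ, Fintype.card_fin, smul_eq_mul] at h4
    exact h4
  have h2 : range n ⊆ U 0 1 ∪ U 1 0 := by
    intro x hx
    rw [mem_union]
    rcases h1 x hx with h | h
    · left
      obtain ⟨a, ha⟩ := h
      exact mem_biUnion.mpr ⟨a, mem_univ _, ha⟩
    · right
      obtain ⟨a, ha⟩ := h
      exact mem_biUnion.mpr ⟨a, mem_univ _, ha⟩
  have h3 := (card_le_card h2).trans (card_union_le _ _)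
  rw [card_range] at h3
  have h5 := hUc 0 1
  have h6 := hUc 1 0
  omega

theorem card_prod_filter {α γ : Type*} [Fintype α] [Fintype γ]
    (P : α × γ → Prop) [DecidablePred P] :
    (univ.filter P).card = ∑ a, (univ.filter fun c => P (a, c)).card := by
  simp only [Finset.card_filter]
  rw [Fintype.sum_prod_type]

theorem card_prod_filter' {α γ : Type*} [Fintype α] [Fintype γ]
    (P : α × γ → Prop) [DecidablePred P] :
    (univ.filter P).card = ∑ c, (univ.filter fun a => P (a, c)).card := by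
  simp only [Finset.card_filter]
  rw [Fintype.sum_prod_type_right]

/-- the main counting inequality -/
theorem counting {K u d T A B s w N q L : ℕ} (hT : 1 ≤ T) (hK : 1 ≤ K) (hL : 1 ≤ L)
    (hd : d + 1 = 2 * q) (hu : u = T * q ^ 2)
    (hN : 32 * (K * T * q) ≤ N) (hN2 : N ≤ 2 ^ w) (hu2 : u ≤ 2 ^ w)
    (hLs : 64 * (2 * (K + u) + 2 ^ w * (s * 2 ^ w * (K + 1) + 1)) ≤ 2 ^ L)
    (𝒟 : Scheme A B s w (K + K + 1))
    (h𝒟 : ∀ F : Fin (K + K + 1) → Finset ℕ, IsFamily N w F → 𝒟.Serves T F) :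
    2 * (T * (K * K) * (d + 1)) ≤ 16 * (2 * ((4 * B + 10 * L) * (K * K * A) +
      s * ((d + 1) * (6 * L * L)) + (d + 1) * (K * L))) := by
  classical
  set Q := (d + 1) ^ (K * u) * (d + 1) ^ (K * u) with hQ
  have hQpos : 0 < Q := by positivity
  have hq : 1 ≤ q := by omega
  have hKTq : 0 < K * T * q := by positivity
  have hKu : K + u ≤ 2 ^ L := by
    have : K + u ≤ 64 * (2 * (K + u) + 2 ^ w * (s * 2 ^ w * (K + 1) + 1)) := by
      have := Nat.zero_le (2 ^ w * (s * 2 ^ w * (K + 1) + 1))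
      omega
    omega
  obtain ⟨Bad1, hB1, hB1'⟩ := side_bad 𝒟 (li K) (ri K) u d hL hK
  obtain ⟨Bad2, hB2, hB2'⟩ := side_bad 𝒟 (ri K) (li K) u d hL hK
  -- bad choices
  set b0 : Finset (Om K u d) := univ.filter fun ω => N < size ω with hb0
  set b1 : Finset (Om K u d) := univ.filter fun ω => ¬ Disc L ω.1 with hb1
  set b2 : Finset (Om K u d) := univ.filter fun ω => ¬ Disc L ω.2 with hb2
  set b3 : Finset (Om K u d) := univ.filter fun ω => ω.2 ∈ Bad1 ω.1 with hb3
  set b4 : Finset (Om K u d) := univ.filter fun ω => ω.1 ∈ Bad2 ω.2 with hb4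
  have hc0 : 32 * b0.card ≤ Q := by
    have h1 : N * b0.card ≤ K * T * q * Q := by
      rw [← sum_size (K := K) (u := u) (d := d) T q hd hu, mul_comm, ← smul_eq_mul,
        ← Finset.sum_const]
      refine le_trans (Finset.sum_le_sum fun ω hω => ?_)
        (Finset.sum_le_sum_of_subset (Finset.subset_univ b0))
      rw [hb0, mem_filter] at hω
      exact hω.2.le
    have h2 : K * T * q * (32 * b0.card) ≤ K * T * q * Q := by
      calc K * T * q * (32 * b0.card) = 32 * (K * T * q) * b0.card := by ring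
        _ ≤ N * b0.card := Nat.mul_le_mul_right _ hN
        _ ≤ _ := h1
    exact Nat.le_of_mul_le_mul_left h2 hKTq
  have hcardU' : (univ : Finset (Fin K × Fin u → Fin (d + 1))).card = (d + 1) ^ (K * u) := by
    rw [card_univ, Fintype.card_fun, Fintype.card_fin, card_base]
  have hdt := disc_tail (K := K) (u := u) (d := d) L hKu
  set nD := (univ.filter fun g : Fin K × Fin u → Fin (d + 1) => ¬ Disc L g).card with hnD
  have hc1 : b1.card * 2 ^ L ≤ 2 * (K + u) * Q := by
    have e : b1.card = nD * (d + 1) ^ (K * u) := by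
      rw [hb1, card_prod_filter' (fun ω : Om K u d => ¬ Disc L ω.1)]
      simp only
      rw [Finset.sum_const, hcardU', smul_eq_mul, mul_comm]
    rw [e]
    calc nD * (d + 1) ^ (K * u) * 2 ^ L = (nD * 2 ^ L) * (d + 1) ^ (K * u) := by ring
      _ ≤ (2 * (K + u) * (d + 1) ^ (K * u)) * (d + 1) ^ (K * u) := Nat.mul_le_mul_right _ hdt
      _ = _ := by rw [hQ]; ring
  have hc2 : b2.card * 2 ^ L ≤ 2 * (K + u) * Q := by
    have e : b2.card = nD * (d + 1) ^ (K * u) := by
      rw [hb2, card_prod_filter (fun ω : Om K u d => ¬ Disc L ω.2)]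
      simp only
      rw [Finset.sum_const, hcardU', smul_eq_mul, mul_comm]
    rw [e]
    calc nD * (d + 1) ^ (K * u) * 2 ^ L = (nD * 2 ^ L) * (d + 1) ^ (K * u) := by ring
      _ ≤ (2 * (K + u) * (d + 1) ^ (K * u)) * (d + 1) ^ (K * u) := Nat.mul_le_mul_right _ hdt
      _ = _ := by rw [hQ]; ring
  have hc3 : b3.card * 2 ^ L ≤ 2 ^ w * (s * 2 ^ w * (K + 1) + 1) * Q := by
    rw [hb3, card_prod_filter (fun ω : Om K u d => ω.2 ∈ Bad1 ω.1)]
    simp only [Finset.filter_mem_eq_inter, Finset.univ_inter]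
    rw [Finset.sum_mul]
    refine (Finset.sum_le_sum fun g _ => hB1 g).trans (le_of_eq ?_)
    rw [Finset.sum_const, hcardU', smul_eq_mul, hQ]
    ring
  have hc4 : b4.card * 2 ^ L ≤ 2 ^ w * (s * 2 ^ w * (K + 1) + 1) * Q := by
    rw [hb4, card_prod_filter' (fun ω : Om K u d => ω.1 ∈ Bad2 ω.2)]
    simp only [Finset.filter_mem_eq_inter, Finset.univ_inter]
    rw [Finset.sum_mul]
    refine (Finset.sum_le_sum fun g _ => hB2 g).trans (le_of_eq ?_)
    rw [Finset.sum_const, hcardU', smul_eq_mul, hQ]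
    ring
  set bad := b0 ∪ (b1 ∪ b2 ∪ (b3 ∪ b4)) with hbad
  have hbadc : 16 * bad.card ≤ Q := by
    have h1 : bad.card ≤ b0.card + (b1.card + b2.card + (b3.card + b4.card)) := by
      refine (card_union_le _ _).trans (Nat.add_le_add_left ?_ _)
      refine (card_union_le _ _).trans (Nat.add_le_add ?_ ?_)
      · exact card_union_le _ _
      · exact card_union_le _ _
    have h2 : 32 * (b1.card + b2.card + (b3.card + b4.card)) * 2 ^ L ≤ Q * 2 ^ L := by
      calc 32 * (b1.card + b2.card + (b3.card + b4.card)) * 2 ^ L =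
          32 * (b1.card * 2 ^ L + b2.card * 2 ^ L + (b3.card * 2 ^ L + b4.card * 2 ^ L)) := by
            ring
        _ ≤ 32 * (2 * (K + u) * Q + 2 * (K + u) * Q +
            (2 ^ w * (s * 2 ^ w * (K + 1) + 1) * Q +
              2 ^ w * (s * 2 ^ w * (K + 1) + 1) * Q)) := by
            apply Nat.mul_le_mul_left
            omega
        _ = (64 * (2 * (K + u) + 2 ^ w * (s * 2 ^ w * (K + 1) + 1))) * Q := by ring
        _ ≤ 2 ^ L * Q := Nat.mul_le_mul_right _ hLs
        _ = Q * 2 ^ L := by ring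
    have h3 := Nat.le_of_mul_le_mul_right h2 (by positivity)
    omega
  -- the bound for good choices
  set E1 := (4 * B + 10 * L) * (K * K * A) + s * ((d + 1) * (6 * L * L)) + (d + 1) * (K * L)
    with hE1
  have hgood : ∀ ω : Om K u d, (d + 1) * (∑ j, ∑ i, YY T ω i j) ≤
      2 * E1 + if ω ∈ bad then (d + 1) * (K * K * T) else 0 := by
    intro ω
    split_ifs with hω
    · refine le_trans (Nat.mul_le_mul_left _ ?_) (Nat.le_add_left _ _)
      calc ∑ j, ∑ i, YY T ω i j ≤ ∑ _j : Fin K, ∑ _i : Fin K, T := by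
            refine Finset.sum_le_sum fun j _ => Finset.sum_le_sum fun i _ => ?_
            unfold YY
            split_ifs with h
            · exact h
            · exact Nat.zero_le _
        _ = K * K * T := by
            rw [Finset.sum_const, Finset.sum_const, card_univ, Fintype.card_fin, smul_eq_mul,
              smul_eq_mul, mul_assoc]
    · rw [add_zero]
      rw [hbad, mem_union, mem_union, mem_union, mem_union, not_or, not_or, not_or, not_or] at hω
      obtain ⟨hω0, ⟨hω1, hω2⟩, hω3, hω4⟩ := hω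
      rw [hb0, mem_filter, not_and] at hω0
      rw [hb1, mem_filter, not_and, not_not] at hω1
      rw [hb2, mem_filter, not_and, not_not] at hω2
      rw [hb3, mem_filter, not_and] at hω3
      rw [hb4, mem_filter, not_and] at hω4
      have hω0 := hω0 (mem_univ _)
      have hω1 := hω1 (mem_univ _)
      have hω2 := hω2 (mem_univ _)
      have hω3 := hω3 (mem_univ _)
      have hω4 := hω4 (mem_univ _)
      push Not at hω0
      obtain ⟨δ, M, hM⟩ := h𝒟 (fam N ω) (fam_isFamily N w ω hω0 hN2 hu2)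
      have hcov := cover 𝒟 T N ω δ M hM
      have h1 := hB1' ω.1 hω1 ω.2 hω3 δ M
      have h2 := hB2' ω.2 hω2 ω.1 hω4 δ M
      calc (d + 1) * (∑ j, ∑ i, YY T ω i j) ≤ (d + 1) *
            (Served ω.1 ω.2 (adr 𝒟 (li K) (ri K) δ ω.1) (der 𝒟 (li K) (ri K) δ ω.1) M +
            Served ω.2 ω.1 (adr 𝒟 (ri K) (li K) δ ω.2) (der 𝒟 (ri K) (li K) δ ω.2) M) :=
            Nat.mul_le_mul_left _ hcov
        _ = (d + 1) *
            Served ω.1 ω.2 (adr 𝒟 (li K) (ri K) δ ω.1) (der 𝒟 (li K) (ri K) δ ω.1) M +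
            (d + 1) *
            Served ω.2 ω.1 (adr 𝒟 (ri K) (li K) δ ω.2) (der 𝒟 (ri K) (li K) δ ω.2) M := by
            rw [mul_add]
        _ ≤ E1 + E1 := Nat.add_le_add h1 h2
        _ = 2 * E1 := by ring
  have hcardU : (univ : Finset (Om K u d)).card = Q := by
    rw [card_univ, Fintype.card_prod, Fintype.card_fun, Fintype.card_fin, card_base]
  have htotal : (d + 1) * (∑ ω : Om K u d, ∑ j, ∑ i, YY T ω i j) ≤
      Q * (2 * E1) + bad.card * ((d + 1) * (K * K * T)) := by
    rw [Finset.mul_sum]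
    refine (Finset.sum_le_sum fun ω _ => hgood ω).trans (le_of_eq ?_)
    rw [Finset.sum_add_distrib, Finset.sum_const, hcardU, smul_eq_mul, Finset.sum_ite_mem,
      Finset.univ_inter, Finset.sum_const, smul_eq_mul]
  have hlow : 3 * T * Q * (K * K) ≤ 16 * ∑ ω : Om K u d, ∑ j, ∑ i, YY T ω i j := by
    have e : ∑ ω : Om K u d, ∑ j, ∑ i, YY T ω i j =
        ∑ j : Fin K, ∑ i : Fin K, ∑ ω : Om K u d, YY T ω i j := by
      rw [Finset.sum_comm]
      refine Finset.sum_congr rfl fun j _ => ?_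
      rw [Finset.sum_comm]
    rw [e, Finset.mul_sum]
    have h1 : ∀ j i : Fin K, 3 * T * Q ≤ 16 * ∑ ω : Om K u d, YY T ω i j :=
      fun j i => sum_YY T q hT hd hu i j
    calc 3 * T * Q * (K * K) = ∑ _j : Fin K, ∑ _i : Fin K, 3 * T * Q := by
          rw [Finset.sum_const, Finset.sum_const, card_univ, Fintype.card_fin, smul_eq_mul,
            smul_eq_mul]
          ring
      _ ≤ ∑ j : Fin K, 16 * ∑ i : Fin K, ∑ ω : Om K u d, YY T ω i j := by
          refine Finset.sum_le_sum fun j _ => ?_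
          rw [Finset.mul_sum]
          exact Finset.sum_le_sum fun i _ => h1 j i
  -- conclusion
  have hfin : Q * (2 * (T * (K * K) * (d + 1))) ≤ Q * (16 * (2 * E1)) := by
    set Sg := ∑ ω : Om K u d, ∑ j, ∑ i, YY T ω i j with hSg
    have h1 : 3 * T * Q * (K * K) * (d + 1) ≤ 16 * (Q * (2 * E1)) +
        16 * bad.card * ((d + 1) * (K * K * T)) := by
      calc 3 * T * Q * (K * K) * (d + 1) ≤ (16 * Sg) * (d + 1) := Nat.mul_le_mul_right _ hlow
        _ = 16 * ((d + 1) * Sg) := by ring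
        _ ≤ 16 * (Q * (2 * E1) + bad.card * ((d + 1) * (K * K * T))) :=
            Nat.mul_le_mul_left _ htotal
        _ = _ := by ring
    have h2 : 16 * bad.card * ((d + 1) * (K * K * T)) ≤
        Q * ((d + 1) * (K * K * T)) := Nat.mul_le_mul_right _ hbadc
    have h3 : 3 * T * Q * (K * K) * (d + 1) =
        Q * (2 * (T * (K * K) * (d + 1))) + Q * ((d + 1) * (K * K * T)) := by ring
    have h4 : Q * (16 * (2 * E1)) = 16 * (Q * (2 * E1)) := by ring
    rw [h4]
    omega
  exact Nat.le_of_mul_le_mul_left hfin hQpos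

/-- The lower bound. -/
theorem main (N T A B s w : ℕ) (hT : 1 ≤ T) (hA : 1 ≤ A) (hB : 1 ≤ B) (hw1 : 1 ≤ w)
    (hN : 10 ^ 8 * (A * (B + w) * w) ≤ N) (hw : N ^ 2 ≤ 2 ^ w) (H : Solvable N T A B s w) :
    N ^ 2 * T ≤ 10 ^ 16 * (A * (B + w) * w) ^ 2 * s := by
  have hAB : 1 ≤ A * B := Nat.mul_pos hA hB
  obtain ⟨P, hP⟩ : ∃ P, P = A * (B + w) := ⟨_, rfl⟩
  have hABP : A * B ≤ P := by
    rw [hP]
    exact Nat.mul_le_mul_left _ (Nat.le_add_right _ _)
  have hPw : P ≤ P * w := Nat.le_mul_of_pos_right _ hw1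
  rw [← hP] at hN ⊢
  have hP1 : 1 ≤ P := by omega
  have hTAB := T_le hAB (by omega) hw H
  have hTP : T ≤ 2 * P := by omega
  have hN1 : 10 ^ 8 ≤ N := by
    have : 1 ≤ P * w := by omega
    omega
  by_cases hs : 2 ^ w < s
  · have h1 : N ^ 2 ≤ s := by omega
    have h2 : T ≤ 2 * (P * w) ^ 2 := by
      have : 1 ≤ P * w := by omega
      nlinarith
    calc N ^ 2 * T ≤ s * (2 * (P * w) ^ 2) := Nat.mul_le_mul h1 h2
      _ = 2 * (P * w) ^ 2 * s := by ring
      _ ≤ 10 ^ 16 * (P * w) ^ 2 * s := by gcongr; norm_num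
  push Not at hs
  -- the parameters
  obtain ⟨q, hq⟩ : ∃ q, q = 3840 * P / T + 1 := ⟨_, rfl⟩
  have hq1 : 3840 * P < q * T := by
    rw [hq]
    have := Nat.lt_mul_div_succ (3840 * P) hT
    calc _ < T * (3840 * P / T + 1) := this
      _ = _ := by ring
  have hq2 : q * T ≤ 3842 * P := by
    rw [hq, add_mul, one_mul]
    have := Nat.div_mul_le_self (3840 * P) T
    omega
  have hq0 : 1 ≤ q := by
    rw [hq]
    exact Nat.le_add_left _ _
  obtain ⟨K, hK⟩ : ∃ K, K = N / (32 * (q * T)) := ⟨_, rfl⟩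
  have hqT : 0 < 32 * (q * T) := by positivity
  obtain ⟨L, hL⟩ : ∃ L, L = 4 * w + 8 := ⟨_, rfl⟩
  have hL12 : L ≤ 12 * w := by omega
  have hKL : 64 * L ≤ K := by
    rw [hK]
    apply (Nat.le_div_iff_mul_le hqT).mpr
    calc 64 * L * (32 * (q * T)) ≤ 64 * (12 * w) * (32 * (3842 * P)) := by gcongr
      _ = 94420992 * (P * w) := by ring
      _ ≤ 10 ^ 8 * (P * w) := by gcongr; norm_num
      _ ≤ N := hN
  have hK1 : 1 ≤ K := by omega
  have hKN : 32 * (K * T * q) ≤ N := by
    have := Nat.div_mul_le_self N (32 * (q * T))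
    rw [← hK] at this
    calc 32 * (K * T * q) = K * (32 * (q * T)) := by ring
      _ ≤ N := this
  have hNK : N ≤ 245888 * (K * P) := by
    have h1 : N < (K + 1) * (32 * (q * T)) := by
      rw [hK]
      have := Nat.lt_mul_div_succ N hqT
      calc N < 32 * (q * T) * (N / (32 * (q * T)) + 1) := this
        _ = _ := by ring
    have h2 : (K + 1) * (32 * (q * T)) ≤ (2 * K) * (32 * (3842 * P)) :=
      Nat.mul_le_mul (by omega) (Nat.mul_le_mul_left _ hq2)
    calc N ≤ (2 * K) * (32 * (3842 * P)) := by omega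
      _ = _ := by ring
  obtain ⟨d, hd⟩ : ∃ d, d + 1 = 2 * q := ⟨2 * q - 1, by omega⟩
  obtain ⟨u, hu⟩ : ∃ u, u = T * q ^ 2 := ⟨_, rfl⟩
  have hNN : N * N ≤ 2 ^ w := by
    calc N * N = N ^ 2 := by ring
      _ ≤ _ := hw
  have hqN : q ≤ N := by
    have h1 : q ≤ K * T * q := by
      have : 1 ≤ K * T := Nat.mul_pos hK1 hT
      calc q = 1 * q := (one_mul q).symm
        _ ≤ _ := Nat.mul_le_mul_right _ this
    omega
  have hKuN : 32 * (K * u) ≤ N * N := by
    calc 32 * (K * u) = 32 * (K * T * q) * q := by rw [hu]; ring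
      _ ≤ N * N := Nat.mul_le_mul hKN hqN
  have huKu : u ≤ K * u := by
    calc u = 1 * u := (one_mul u).symm
      _ ≤ K * u := Nat.mul_le_mul_right _ hK1
  have hKKu : K ≤ K * u := by
    have : 1 ≤ u := by
      rw [hu]
      exact Nat.mul_pos hT (by positivity)
    exact Nat.le_mul_of_pos_right _ this
  have hNN1 : N ≤ N * N := Nat.le_mul_of_pos_right _ (by omega)
  have hu2 : u ≤ 2 ^ w := by omega
  have hN2 : N ≤ 2 ^ w := by omega
  have hK2 : K + 1 ≤ 2 ^ w := by omega
  have hKu2 : K + u ≤ 2 ^ w := by omega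
  have hLs : 64 * (2 * (K + u) + 2 ^ w * (s * 2 ^ w * (K + 1) + 1)) ≤ 2 ^ L := by
    have hW : 1 ≤ 2 ^ w := Nat.one_le_two_pow
    set W := 2 ^ w with hWdef
    have h1 : s * W * (K + 1) ≤ W * W * W := by gcongr
    have h2 : 2 ^ L = 256 * (W * (W * W * W)) := by
      rw [hL, pow_add, pow_mul']
      ring
    have h3 : W * (s * W * (K + 1) + 1) ≤ W * (W * W * W + 1) := by gcongr
    have h4 : W ≤ W * (W * W * W) := Nat.le_mul_of_pos_right _ (by positivity)
    rw [h2]
    have h5 : W * (W * W * W + 1) = W * (W * W * W) + W := by ring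
    omega
  have h2KN : K + K + 1 ≤ N := by
    have h1 : K ≤ K * T * q := by
      calc K = K * 1 * 1 := by ring
        _ ≤ K * T * q := by gcongr
    omega
  obtain ⟨𝒟, h𝒟⟩ := H (K + K + 1) h2KN
  have hmain := counting (L := L) hT hK1 (by omega) hd hu hKN hN2 hu2 hLs 𝒟 h𝒟
  -- simplification
  have hKK : T * (K * K) ≤ 192 * L ^ 2 * s := by
    have hBL : 640 * (A * (B + L)) ≤ T * (d + 1) := by
      have h1 : A * (B + L) ≤ 12 * P := by
        rw [hP]
        calc A * (B + L) ≤ A * (12 * (B + w)) := Nat.mul_le_mul_left _ (by omega)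
          _ = _ := by ring
      have h2 : T * (d + 1) = 2 * (q * T) := by rw [hd]; ring
      omega
    have h1 : 16 * (2 * ((4 * B + 10 * L) * (K * K * A) +
        s * ((d + 1) * (6 * L * L)) + (d + 1) * (K * L))) ≤
        320 * (A * (B + L)) * (K * K) + 192 * L ^ 2 * s * (d + 1) +
          (32 * L) * K * (d + 1) := by
      have h5 : 4 * B + 10 * L ≤ 10 * (B + L) := by omega
      calc 16 * (2 * ((4 * B + 10 * L) * (K * K * A) +
          s * ((d + 1) * (6 * L * L)) + (d + 1) * (K * L)))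
          ≤ 16 * (2 * ((10 * (B + L)) * (K * K * A) +
          s * ((d + 1) * (6 * L * L)) + (d + 1) * (K * L))) := by gcongr
        _ = _ := by ring
    have h2 : 320 * (A * (B + L)) * (K * K) * 2 ≤ T * (K * K) * (d + 1) := by
      calc 320 * (A * (B + L)) * (K * K) * 2 = (640 * (A * (B + L))) * (K * K) := by ring
        _ ≤ (T * (d + 1)) * (K * K) := Nat.mul_le_mul_right _ hBL
        _ = _ := by ring
    have h3 : (32 * L) * K * (d + 1) * 2 ≤ T * (K * K) * (d + 1) := by
      calc (32 * L) * K * (d + 1) * 2 = 1 * ((64 * L) * K) * (d + 1) := by ring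
        _ ≤ T * (K * K) * (d + 1) := by gcongr
    have h4 : (T * (K * K)) * (d + 1) ≤ (192 * L ^ 2 * s) * (d + 1) := by omega
    exact Nat.le_of_mul_le_mul_right h4 (by omega)
  have hL2 : L ^ 2 ≤ 144 * w ^ 2 := by
    calc L ^ 2 ≤ (12 * w) ^ 2 := Nat.pow_le_pow_left hL12 2
      _ = _ := by ring
  calc N ^ 2 * T ≤ (245888 * (K * P)) ^ 2 * T := by gcongr
    _ = 245888 ^ 2 * P ^ 2 * (T * (K * K)) := by ring
    _ ≤ 245888 ^ 2 * P ^ 2 * (192 * L ^ 2 * s) := by gcongr
    _ ≤ 245888 ^ 2 * P ^ 2 * (192 * (144 * w ^ 2) * s) := by gcongr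
    _ = (245888 ^ 2 * 192 * 144) * (P * w) ^ 2 * s := by ring
    _ ≤ 10 ^ 16 * (P * w) ^ 2 * s := by gcongr; norm_num

end Pool.Agent.SetIntLocal
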