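import Pool.Agent.SetIntLocal.Bern

/-!
# First and second moments of the sizes of the intersections
-/

namespace Pool.Agent.SetIntLocal

open Finset

variable {K u d : ℕ}

/-- pairs of random functions -/
abbrev Om (K u d : ℕ) : Type := ((Fin K × Fin u) → Fin (d + 1)) × ((Fin K × Fin u) → Fin (d + 1))

/-- the number of common elements of the left set `i` and the right set `j` -/
def XX (ω : Om K u d) (i j : Fin K) : ℕ :=
  (univ.filter fun x : Fin u => ω.1 (i, x) = 0 ∧ ω.2 (j, x) = 0).card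

/-- the same if it is at most `T` -/
def YY (T : ℕ) (ω : Om K u d) (i j : Fin K) : ℕ := if XX ω i j ≤ T then XX ω i j else 0

/-- the total size of all sets -/
def size (ω : Om K u d) : ℕ :=
  (univ.filter fun p => ω.1 p = 0).card + (univ.filter fun p => ω.2 p = 0).card

theorem card_base : Fintype.card (Fin K × Fin u) = K * u := by
  rw [Fintype.card_prod, Fintype.card_fin, Fintype.card_fin]

theorem card_zero_pair (P Q : Finset (Fin K × Fin u)) :
    (univ.filter fun ω : Om K u d => (∀ p ∈ P, ω.1 p = 0) ∧ ∀ q ∈ Q, ω.2 q = 0).card *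
      (d + 1) ^ (P.card + Q.card) = (d + 1) ^ (K * u) * (d + 1) ^ (K * u) := by
  have h1 := card_zero d P
  have h2 := card_zero d Q
  rw [card_base] at h1 h2
  have e : (univ.filter fun ω : Om K u d => (∀ p ∈ P, ω.1 p = 0) ∧ ∀ q ∈ Q, ω.2 q = 0) =
      (univ.filter fun g : (Fin K × Fin u) → Fin (d + 1) => ∀ p ∈ P, g p = 0) ×ˢ
      (univ.filter fun g : (Fin K × Fin u) → Fin (d + 1) => ∀ p ∈ Q, g p = 0) := by
    ext ω
    simp only [mem_filter, mem_univ, true_and, mem_product]
  rw [e, card_product, pow_add]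
  calc _ = ((univ.filter fun g : (Fin K × Fin u) → Fin (d + 1) => ∀ p ∈ P, g p = 0).card *
        (d + 1) ^ P.card) *
      ((univ.filter fun g : (Fin K × Fin u) → Fin (d + 1) => ∀ p ∈ Q, g p = 0).card *
        (d + 1) ^ Q.card) := by ring
    _ = _ := by rw [h1, h2]

/-- single points -/
theorem card_one (i j : Fin K) (x : Fin u) :
    (univ.filter fun ω : Om K u d => ω.1 (i, x) = 0 ∧ ω.2 (j, x) = 0).card * (d + 1) ^ 2 =
      (d + 1) ^ (K * u) * (d + 1) ^ (K * u) := by
  have h := card_zero_pair (d := d) ({(i, x)} : Finset (Fin K × Fin u)) {(j, x)}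
  simpa using h

/-- two points -/
theorem card_two (i j : Fin K) (x y : Fin u) (hxy : x ≠ y) :
    (univ.filter fun ω : Om K u d => (ω.1 (i, x) = 0 ∧ ω.2 (j, x) = 0) ∧
      (ω.1 (i, y) = 0 ∧ ω.2 (j, y) = 0)).card * (d + 1) ^ 4 =
      (d + 1) ^ (K * u) * (d + 1) ^ (K * u) := by
  have h := card_zero_pair (d := d) ({(i, x), (i, y)} : Finset (Fin K × Fin u)) {(j, x), (j, y)}
  have h1 : ({(i, x), (i, y)} : Finset (Fin K × Fin u)).card = 2 :=
    card_pair (by simp [hxy])
  have h2 : ({(j, x), (j, y)} : Finset (Fin K × Fin u)).card = 2 :=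
    card_pair (by simp [hxy])
  rw [h1, h2] at h
  rw [← h]
  congr 2
  ext ω
  simp only [mem_filter, mem_univ, true_and, mem_insert, mem_singleton, forall_eq_or_imp,
    forall_eq]
  tauto

theorem XX_eq (ω : Om K u d) (i j : Fin K) :
    XX ω i j = ∑ x : Fin u, if ω.1 (i, x) = 0 ∧ ω.2 (j, x) = 0 then 1 else 0 := by
  unfold XX
  rw [Finset.card_filter]

theorem first_moment (i j : Fin K) :
    (∑ ω : Om K u d, XX ω i j) * (d + 1) ^ 2 =
      u * ((d + 1) ^ (K * u) * (d + 1) ^ (K * u)) := by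
  have e : ∑ ω : Om K u d, XX ω i j =
      ∑ x : Fin u, (univ.filter fun ω : Om K u d => ω.1 (i, x) = 0 ∧ ω.2 (j, x) = 0).card := by
    simp only [XX_eq]
    rw [Finset.sum_comm]
    refine Finset.sum_congr rfl fun x _ => ?_
    rw [Finset.card_filter]
  rw [e, Finset.sum_mul]
  simp only [card_one]
  rw [Finset.sum_const, card_univ, Fintype.card_fin, smul_eq_mul]

theorem second_moment (i j : Fin K) :
    (∑ ω : Om K u d, XX ω i j ^ 2) * (d + 1) ^ 4 ≤
      (∑ ω : Om K u d, XX ω i j) * (d + 1) ^ 4 +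
        u ^ 2 * ((d + 1) ^ (K * u) * (d + 1) ^ (K * u)) := by
  have e : ∑ ω : Om K u d, XX ω i j ^ 2 =
      ∑ x : Fin u, ∑ y : Fin u,
        (univ.filter fun ω : Om K u d => (ω.1 (i, x) = 0 ∧ ω.2 (j, x) = 0) ∧
          (ω.1 (i, y) = 0 ∧ ω.2 (j, y) = 0)).card := by
    have e1 : ∀ ω : Om K u d, XX ω i j ^ 2 = ∑ x : Fin u, ∑ y : Fin u,
        if (ω.1 (i, x) = 0 ∧ ω.2 (j, x) = 0) ∧ (ω.1 (i, y) = 0 ∧ ω.2 (j, y) = 0)
          then 1 else 0 := by
      intro ω
      rw [sq, XX_eq, Finset.sum_mul_sum]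
      refine Finset.sum_congr rfl fun x _ => Finset.sum_congr rfl fun y _ => ?_
      by_cases h1 : ω.1 (i, x) = 0 ∧ ω.2 (j, x) = 0
      · by_cases h2 : ω.1 (i, y) = 0 ∧ ω.2 (j, y) = 0
        · simp [h1, h2]
        · simp only [h1, h2, and_false, if_false, mul_zero]
      · simp only [h1, false_and, if_false, zero_mul]
    simp only [e1]
    rw [Finset.sum_comm]
    refine Finset.sum_congr rfl fun x _ => ?_
    rw [Finset.sum_comm]
    refine Finset.sum_congr rfl fun y _ => ?_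
    rw [Finset.card_filter]
  have e' : ∑ ω : Om K u d, XX ω i j =
      ∑ x : Fin u, (univ.filter fun ω : Om K u d => ω.1 (i, x) = 0 ∧ ω.2 (j, x) = 0).card := by
    simp only [XX_eq]
    rw [Finset.sum_comm]
    refine Finset.sum_congr rfl fun x _ => ?_
    rw [Finset.card_filter]
  set Q := (d + 1) ^ (K * u) * (d + 1) ^ (K * u) with hQ
  have e2 : ∀ x y : Fin u, (univ.filter fun ω : Om K u d =>
      (ω.1 (i, x) = 0 ∧ ω.2 (j, x) = 0) ∧
          (ω.1 (i, y) = 0 ∧ ω.2 (j, y) = 0)).card * (d + 1) ^ 4 ≤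
      (if x = y then (univ.filter fun ω : Om K u d =>
        ω.1 (i, x) = 0 ∧ ω.2 (j, x) = 0).card * (d + 1) ^ 4 else 0) + Q := by
    intro x y
    by_cases hxy : x = y
    · subst hxy
      rw [if_pos rfl]
      have h2 : (univ.filter fun ω : Om K u d => (ω.1 (i, x) = 0 ∧ ω.2 (j, x) = 0) ∧
          (ω.1 (i, x) = 0 ∧ ω.2 (j, x) = 0)) =
          univ.filter fun ω : Om K u d => ω.1 (i, x) = 0 ∧ ω.2 (j, x) = 0 := by
        ext ω
        simp only [mem_filter, mem_univ, true_and, and_self]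
      rw [h2]
      exact Nat.le_add_right _ _
    · rw [if_neg hxy, card_two i j x y hxy, zero_add]
  rw [e, e', Finset.sum_mul, Finset.sum_mul]
  calc ∑ x : Fin u, (∑ y : Fin u, (univ.filter fun ω : Om K u d =>
        (ω.1 (i, x) = 0 ∧ ω.2 (j, x) = 0) ∧
          (ω.1 (i, y) = 0 ∧ ω.2 (j, y) = 0)).card) * (d + 1) ^ 4
      ≤ ∑ x : Fin u, ∑ y : Fin u, ((if x = y then (univ.filter fun ω : Om K u d =>
        ω.1 (i, x) = 0 ∧ ω.2 (j, x) = 0).card * (d + 1) ^ 4 else 0) + Q) := by
        refine Finset.sum_le_sum fun x _ => ?_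
        rw [Finset.sum_mul]
        exact Finset.sum_le_sum fun y _ => e2 x y
    _ = _ := by
        simp only [Finset.sum_add_distrib, Finset.sum_ite_eq, mem_univ, if_true,
          Finset.sum_const, card_univ, Fintype.card_fin, smul_eq_mul]
        ring

theorem YY_lower (T : ℕ) (ω : Om K u d) (i j : Fin K) :
    T * XX ω i j + XX ω i j ≤ T * YY T ω i j + XX ω i j ^ 2 := by
  unfold YY
  split_ifs with h
  · rcases Nat.eq_zero_or_pos (XX ω i j) with h0 | h0
    · rw [h0]; simp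
    · nlinarith
  · push Not at h
    nlinarith

/-- the main lower bound: the expected value is at least `3 T / 16` -/
theorem sum_YY (T q : ℕ) (hT : 1 ≤ T) (hd : d + 1 = 2 * q) (hu : u = T * q ^ 2) (i j : Fin K) :
    3 * T * ((d + 1) ^ (K * u) * (d + 1) ^ (K * u)) ≤ 16 * ∑ ω : Om K u d, YY T ω i j := by
  have h1 := first_moment (d := d) (u := u) i j
  have h2 := second_moment (d := d) (u := u) i j
  set Q := (d + 1) ^ (K * u) * (d + 1) ^ (K * u) with hQ
  have hq : 1 ≤ q := by omega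
  have h3 : 4 * ∑ ω : Om K u d, XX ω i j = T * Q := by
    have hq2 : 0 < q ^ 2 := by positivity
    apply Nat.eq_of_mul_eq_mul_right hq2
    calc 4 * (∑ ω : Om K u d, XX ω i j) * q ^ 2 =
        (∑ ω : Om K u d, XX ω i j) * (2 * q) ^ 2 := by ring
      _ = u * Q := by rw [← hd]; exact h1
      _ = _ := by rw [hu]; ring
  have h4 : 16 * ∑ ω : Om K u d, XX ω i j ^ 2 ≤
      16 * (∑ ω : Om K u d, XX ω i j) + T ^ 2 * Q := by
    have hq4 : 0 < q ^ 4 := by positivity
    apply Nat.le_of_mul_le_mul_right _ hq4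
    calc 16 * (∑ ω : Om K u d, XX ω i j ^ 2) * q ^ 4 =
        (∑ ω : Om K u d, XX ω i j ^ 2) * (2 * q) ^ 4 := by ring
      _ ≤ (∑ ω : Om K u d, XX ω i j) * (2 * q) ^ 4 + u ^ 2 * Q := by rw [← hd]; exact h2
      _ = _ := by rw [hu]; ring
  have h5 : T * (∑ ω : Om K u d, XX ω i j) + ∑ ω : Om K u d, XX ω i j ≤
      T * (∑ ω : Om K u d, YY T ω i j) + ∑ ω : Om K u d, XX ω i j ^ 2 := by
    rw [Finset.mul_sum, Finset.mul_sum, ← Finset.sum_add_distrib, ← Finset.sum_add_distrib]
    exact Finset.sum_le_sum fun ω _ => YY_lower T ω i j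
  apply Nat.le_of_mul_le_mul_left _ (by omega : 0 < T)
  nlinarith

theorem sum_size (T q : ℕ) (hd : d + 1 = 2 * q) (hu : u = T * q ^ 2) :
    ∑ ω : Om K u d, size ω =
      K * T * q * ((d + 1) ^ (K * u) * (d + 1) ^ (K * u)) := by
  set Q := (d + 1) ^ (K * u) * (d + 1) ^ (K * u) with hQ
  have hl : ∀ p : Fin K × Fin u,
      (univ.filter fun ω : Om K u d => ω.1 p = 0).card * (d + 1) = Q := by
    intro p
    have h := card_zero_pair (d := d) ({p} : Finset (Fin K × Fin u)) ∅
    simpa using h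
  have hr : ∀ p : Fin K × Fin u,
      (univ.filter fun ω : Om K u d => ω.2 p = 0).card * (d + 1) = Q := by
    intro p
    have h := card_zero_pair (d := d) ∅ ({p} : Finset (Fin K × Fin u))
    simpa using h
  have e : ∑ ω : Om K u d, size ω =
      (∑ p : Fin K × Fin u, (univ.filter fun ω : Om K u d => ω.1 p = 0).card) +
      ∑ p : Fin K × Fin u, (univ.filter fun ω : Om K u d => ω.2 p = 0).card := by
    unfold size
    rw [Finset.sum_add_distrib]
    congr 1
    · simp only [Finset.card_filter]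
      rw [Finset.sum_comm]
    · simp only [Finset.card_filter]
      rw [Finset.sum_comm]
  have hd0 : 0 < d + 1 := by omega
  apply Nat.eq_of_mul_eq_mul_right hd0
  rw [e, add_mul, Finset.sum_mul, Finset.sum_mul]
  simp only [hl, hr]
  rw [Finset.sum_const, card_univ, card_base, smul_eq_mul, hd, hu]
  ring

end Pool.Agent.SetIntLocal
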